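import Pool.Agent.H22.HSQ.Defs

/-!
Row DIH of the board hsq_modules: the multiplication table of the dihedral group.
-/

namespace Pool.Agent.H22.HSQ

open Pool.Agent.H51.Homog

theorem ncard_val_lt {m h : ℕ} [NeZero m] (h1 : h ≤ m) :
    {i : ZMod m | i.val < h}.ncard = h := by
  have h2 : {i : ZMod m | i.val < h} = (fun n : ℕ => (n : ZMod m)) '' (Finset.range h : Set ℕ) := by
    ext i
    constructor
    · intro hi
      exact ⟨i.val, Finset.mem_coe.2 (Finset.mem_range.2 hi), ZMod.natCast_zmod_val i⟩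
    · rintro ⟨n, hn, rfl⟩
      rw [Finset.mem_coe, Finset.mem_range] at hn
      show (n : ZMod m).val < h
      rw [ZMod.val_cast_of_lt (by omega)]
      exact hn
  have h4 : Set.InjOn (fun n : ℕ => (n : ZMod m)) (Finset.range h : Set ℕ) := by
    intro a ha b hb hab
    rw [Finset.mem_coe, Finset.mem_range] at ha hb
    have h3 := congrArg ZMod.val hab
    simp only at h3
    rwa [ZMod.val_cast_of_lt (by omega), ZMod.val_cast_of_lt (by omega)] at h3
  rw [h2, h4.ncard_image, Set.ncard_coe_finset, Finset.card_range]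

theorem base_dihedral {h m : ℕ} (hm : 1 ≤ m) (h1 : h ≤ m) : Base h (2 * m) := by
  have : NeZero m := ⟨by omega⟩
  refine ⟨DihedralGroup m, inferInstance, fun x y => x * y,
    fun x y x1 y1 => ∃ i : ZMod m, i.val < h ∧ x1 = x * DihedralGroup.sr i ∧
      y1 = DihedralGroup.sr i * y, DihedralGroup.card, ?_, ?_, ?_⟩
  · exact ⟨fun r => Group.mulLeft_bijective r, fun c => Group.mulRight_bijective c⟩
  · have hsr : ∀ i : ZMod m, DihedralGroup.sr i * DihedralGroup.sr i = 1 :=
      DihedralGroup.sr_mul_self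
    have hne : ∀ i : ZMod m, DihedralGroup.sr i ≠ 1 := by
      intro i hi
      rw [DihedralGroup.one_def] at hi
      cases hi
    refine ⟨?_, ?_, ?_, ?_, ?_, ?_⟩
    · rintro x y x1 y1 ⟨i, -, rfl, rfl⟩ he
      exact hne i (mul_eq_left.1 he)
    · rintro x y x1 y1 ⟨i, -, rfl, rfl⟩ he
      exact hne i (mul_eq_right.1 he)
    · rintro x y x1 y1 ⟨i, -, rfl, rfl⟩
      show x * DihedralGroup.sr i * (DihedralGroup.sr i * y) = x * y
      rw [mul_assoc, ← mul_assoc (DihedralGroup.sr i), hsr, one_mul]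
    · rintro x y x1 y1 ⟨i, -, rfl, rfl⟩
      exact mul_assoc _ _ _
    · rintro x y x1 y1 ⟨i, hi, rfl, rfl⟩
      exact ⟨i, hi, by rw [mul_assoc, hsr, mul_one], rfl⟩
    · rintro x y x1 y1 ⟨i, hi, rfl, rfl⟩
      exact ⟨i, hi, rfl, by rw [← mul_assoc, hsr, one_mul]⟩
  · intro x y
    unfold cov
    have h2 : {p : DihedralGroup m × DihedralGroup m | ∃ i : ZMod m, i.val < h ∧
        p.1 = x * DihedralGroup.sr i ∧ p.2 = DihedralGroup.sr i * y} =
        (fun i : ZMod m => (x * DihedralGroup.sr i, DihedralGroup.sr i * y)) ''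
          {i : ZMod m | i.val < h} := by
      ext ⟨a, b⟩
      constructor
      · rintro ⟨i, hi, h3, h4⟩
        exact ⟨i, hi, Prod.ext h3.symm h4.symm⟩
      · rintro ⟨i, hi, h3⟩
        exact ⟨i, hi, (congrArg Prod.fst h3).symm, (congrArg Prod.snd h3).symm⟩
    refine (congrArg Set.ncard h2).trans ?_
    rw [Set.ncard_image_of_injective, ncard_val_lt h1]
    intro i j hij
    have h3 := congrArg Prod.fst hij
    have h4 := mul_left_cancel h3
    exact DihedralGroup.sr.inj h4

end Pool.Agent.H22.HSQ
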