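import Pool.Agent.H22.HSQ.Defs

/-!
# Relabelling rows, columns and symbols
-/

namespace Pool.Agent.H22.HSQ

open Pool.Agent.H51.Homog

theorem iso_transport {α β : Type} (e1 e2 e3 : α ≃ β) {L : α → α → α}
    {S : α → α → α → α → Prop} (hL : IsLatin L) (hS : IsSys L S) :
    IsLatin (fun r c => e3 (L (e1.symm r) (e2.symm c))) ∧
      IsSys (fun r c => e3 (L (e1.symm r) (e2.symm c)))
        (fun r c r' c' => S (e1.symm r) (e2.symm c) (e1.symm r') (e2.symm c')) ∧
      ∀ r c, cov (fun r c r' c' => S (e1.symm r) (e2.symm c) (e1.symm r') (e2.symm c')) r c =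
        cov S (e1.symm r) (e2.symm c) := by
  refine ⟨⟨fun r => ?_, fun c => ?_⟩, ⟨?_, ?_, ?_, ?_, ?_, ?_⟩, fun r c => ?_⟩
  · exact e3.bijective.comp ((hL.1 _).comp e2.symm.bijective)
  · exact e3.bijective.comp ((hL.2 (e2.symm c)).comp e1.symm.bijective)
  · rintro r c r' c' h rfl
    exact hS.ne_row h rfl
  · rintro r c r' c' h rfl
    exact hS.ne_col h rfl
  · intro r c r' c' h
    exact congrArg e3 (hS.diag h)
  · intro r c r' c' h
    exact congrArg e3 (hS.anti h)
  · intro r c r' c' h
    exact hS.swap_row h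
  · intro r c r' c' h
    exact hS.swap_col h
  · have hset : {p : β × β | S (e1.symm r) (e2.symm c) (e1.symm p.1) (e2.symm p.2)} =
        (Equiv.prodCongr e1 e2) '' {p : α × α | S (e1.symm r) (e2.symm c) p.1 p.2} := by
      ext ⟨a, b⟩
      simp only [Set.mem_ofPred_eq, Set.mem_image, Prod.exists, Equiv.prodCongr_apply,
        Prod.map_apply, Prod.mk.injEq]
      constructor
      · intro h
        exact ⟨e1.symm a, e2.symm b, h, by simp, by simp⟩
      · rintro ⟨a', b', h, rfl, rfl⟩
        simpa using h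
    rw [cov, hset, Set.ncard_image_of_injective _ (Equiv.injective _), cov]

theorem base_norm {h w : ℕ} (H : Base h (w + 1)) :
    ∃ (L : Option (Fin w) → Option (Fin w) → Option (Fin w))
      (S : Option (Fin w) → Option (Fin w) → Option (Fin w) → Option (Fin w) → Prop),
      IsLatin L ∧ IsSys L S ∧ L none none = none ∧ ∀ r c, cov S r c = h := by
  classical
  obtain ⟨α, _, L, S, hc, hL, hS, hcov⟩ := H
  let e : α ≃ Option (Fin w) := Fintype.equivOfCardEq (by rw [hc, Fintype.card_option, Fintype.card_fin])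
  let e3 : α ≃ Option (Fin w) := e.trans (Equiv.swap (e (L (e.symm none) (e.symm none))) none)
  obtain ⟨h1, h2, h3⟩ := iso_transport e e e3 hL hS
  exact ⟨_, _, h1, h2, by simp [e3], fun r c => by rw [h3, hcov]⟩

theorem base1_norm {h w : ℕ} (H : Base1 h (w + 1)) :
    ∃ (L : Option (Fin w) → Option (Fin w) → Option (Fin w))
      (S : Option (Fin w) → Option (Fin w) → Option (Fin w) → Option (Fin w) → Prop),
      IsLatin L ∧ IsSys L S ∧ L none none = none ∧ cov S none none = 0 ∧
        ∀ r c, (r, c) ≠ (none, none) → cov S r c = h := by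
  classical
  obtain ⟨α, _, L, S, a, b, hc, hL, hS, hab, hcov⟩ := H
  let e : α ≃ Option (Fin w) := Fintype.equivOfCardEq (by rw [hc, Fintype.card_option, Fintype.card_fin])
  let e1 : α ≃ Option (Fin w) := e.trans (Equiv.swap (e a) none)
  let e2 : α ≃ Option (Fin w) := e.trans (Equiv.swap (e b) none)
  let e3 : α ≃ Option (Fin w) := e.trans (Equiv.swap (e (L a b)) none)
  have ha : e1.symm none = a := by rw [Equiv.symm_apply_eq]; simp [e1]
  have hb : e2.symm none = b := by rw [Equiv.symm_apply_eq]; simp [e2]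
  obtain ⟨h1, h2, h3⟩ := iso_transport e1 e2 e3 hL hS
  refine ⟨_, _, h1, h2, ?_, ?_, fun r c hrc => ?_⟩
  · simp only [ha, hb]
    simp [e3]
  · rw [h3, ha, hb, hab]
  · rw [h3]
    apply hcov
    intro h
    apply hrc
    simp only [Prod.mk.injEq] at h ⊢
    rw [← ha, ← hb] at h
    exact ⟨e1.symm.injective h.1, e2.symm.injective h.2⟩

end Pool.Agent.H22.HSQ
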