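import Pool.Agent.H22.HSQ.Defs

/-!
Row FRA of the board hsq_modules: a frame of order 8.
-/

namespace Pool.Agent.H22.HSQ

open Pool.Agent.H51.Homog

/-- an idempotent latin square of order 8 -/
def V8 : Fin 8 → Fin 8 → Fin 8 :=
  ![![0, 2, 4, 6, 3, 1, 7, 5],
    ![3, 1, 7, 5, 0, 2, 4, 6],
    ![6, 4, 2, 0, 5, 7, 1, 3],
    ![5, 7, 1, 3, 6, 4, 2, 0],
    ![7, 5, 3, 1, 4, 6, 0, 2],
    ![4, 6, 0, 2, 7, 5, 3, 1],
    ![1, 3, 5, 7, 2, 0, 6, 4],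
    ![2, 0, 6, 4, 1, 3, 5, 7]]

/-- the partners of the cells -/
def P8 : Fin 8 → Fin 8 → List (Fin 8 × Fin 8) :=
  ![![[],
      [(3, 6), (4, 7), (5, 3), (6, 4)],
      [(1, 6), (3, 5), (6, 7), (7, 3)],
      [(1, 7), (4, 5), (5, 1), (7, 2)],
      [(2, 7), (5, 6), (6, 1), (7, 5)],
      [(2, 6), (3, 2), (4, 3), (7, 4)],
      [(1, 2), (2, 5), (3, 1), (5, 4)],
      [(1, 3), (2, 4), (4, 1), (6, 2)]],
    ![[(2, 7), (4, 2), (5, 6), (7, 5)],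
      [],
      [(0, 6), (4, 0), (5, 4), (6, 3)],
      [(0, 7), (2, 4), (6, 2), (7, 6)],
      [(2, 3), (3, 7), (5, 2), (6, 5)],
      [(3, 6), (4, 7), (6, 4), (7, 0)],
      [(0, 2), (3, 5), (5, 0), (7, 3)],
      [(0, 3), (2, 0), (3, 4), (4, 5)]],
    ![[(1, 7), (3, 4), (4, 5), (5, 1)],
      [(3, 5), (5, 0), (6, 7), (7, 3)],
      [],
      [(1, 4), (4, 6), (6, 5), (7, 1)],
      [(0, 7), (1, 3), (3, 0), (7, 6)],
      [(0, 6), (3, 1), (4, 0), (6, 3)],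
      [(0, 5), (4, 3), (5, 7), (7, 4)],
      [(0, 4), (1, 0), (5, 6), (6, 1)]],
    ![[(2, 4), (4, 1), (6, 2), (7, 6)],
      [(0, 6), (2, 5), (4, 0), (5, 4)],
      [(0, 5), (5, 7), (6, 0), (7, 4)],
      [],
      [(1, 7), (2, 0), (5, 1), (7, 2)],
      [(0, 2), (1, 6), (2, 1), (6, 7)],
      [(0, 1), (1, 5), (4, 7), (7, 0)],
      [(1, 4), (4, 6), (5, 2), (6, 5)]],
    ![[(1, 2), (2, 5), (3, 1), (6, 3)],
      [(0, 7), (3, 0), (6, 2), (7, 6)],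
      [(1, 0), (5, 6), (6, 1), (7, 5)],
      [(0, 5), (2, 6), (5, 7), (6, 0)],
      [],
      [(0, 3), (1, 7), (2, 0), (7, 2)],
      [(2, 3), (3, 7), (5, 2), (7, 1)],
      [(0, 1), (1, 5), (3, 6), (5, 3)]],
    ![[(1, 6), (2, 1), (6, 7), (7, 3)],
      [(0, 3), (2, 0), (3, 4), (7, 2)],
      [(1, 4), (3, 7), (4, 6), (7, 1)],
      [(0, 1), (4, 7), (6, 4), (7, 0)],
      [(0, 6), (1, 2), (3, 1), (6, 3)],
      [],
      [(0, 4), (1, 0), (2, 7), (4, 2)],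
      [(2, 6), (3, 2), (4, 3), (6, 0)]],
    ![[(3, 2), (4, 3), (5, 7), (7, 4)],
      [(0, 4), (2, 7), (4, 2), (7, 5)],
      [(0, 7), (1, 3), (3, 0), (4, 1)],
      [(1, 2), (2, 5), (4, 0), (5, 4)],
      [(0, 1), (1, 5), (5, 3), (7, 0)],
      [(1, 4), (2, 3), (3, 7), (7, 1)],
      [],
      [(0, 2), (2, 1), (3, 5), (5, 0)]],
    ![[(1, 5), (3, 6), (5, 3), (6, 4)],
      [(2, 3), (4, 6), (5, 2), (6, 5)],
      [(0, 3), (3, 4), (4, 5), (5, 1)],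
      [(0, 2), (1, 6), (2, 1), (5, 0)],
      [(0, 5), (2, 6), (3, 2), (6, 0)],
      [(0, 4), (1, 0), (4, 2), (6, 1)],
      [(1, 3), (2, 4), (3, 0), (4, 1)],
      []]]

theorem V8_row : ∀ r a b : Fin 8, V8 r a = V8 r b → a = b := by decide

theorem V8_col : ∀ c a b : Fin 8, V8 a c = V8 b c → a = b := by decide

theorem P8_ok : ∀ r c : Fin 8, (P8 r c).Nodup ∧ (P8 r c).length = (if r = c then 0 else 4) ∧
    ∀ p ∈ P8 r c, p.1 ≠ r ∧ p.2 ≠ c ∧ V8 p.1 p.2 = V8 r c ∧ V8 p.1 c = V8 r p.2 ∧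
      (r, p.2) ∈ P8 p.1 c ∧ (p.1, c) ∈ P8 r p.2 := by decide +kernel

theorem cov_P8 (r c : Fin 8) :
    cov (fun r c r1 c1 => (r1, c1) ∈ P8 r c) r c = (if r = c then 0 else 4) := by
  obtain ⟨h1, h2, -⟩ := P8_ok r c
  unfold cov
  have h3 : {p : Fin 8 × Fin 8 | (p.1, p.2) ∈ P8 r c} = ((P8 r c).toFinset : Set _) := by
    ext p
    simp
  rw [h3, Set.ncard_coe_finset, List.toFinset_card_of_nodup h1, h2]

theorem frame_eight : ∃ (V : Fin 8 → Fin 8 → Fin 8) (S : Fin 8 → Fin 8 → Fin 8 → Fin 8 → Prop),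
    IsLatin V ∧ IsSys V S ∧ (∀ x, V x x = x) ∧ (∀ i j, i ≠ j → cov S i j = 4) ∧
      ∀ i, cov S i i = 0 := by
  refine ⟨V8, fun r c r1 c1 => (r1, c1) ∈ P8 r c, ?_, ?_, by decide, ?_, ?_⟩
  · exact ⟨fun r => Finite.injective_iff_bijective.1 fun a b h => V8_row r a b h,
      fun c => Finite.injective_iff_bijective.1 fun a b h => V8_col c a b h⟩
  · exact ⟨fun {r c r1 c1} h => ((P8_ok r c).2.2 _ h).1,
      fun {r c r1 c1} h => ((P8_ok r c).2.2 _ h).2.1,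
      fun {r c r1 c1} h => ((P8_ok r c).2.2 _ h).2.2.1,
      fun {r c r1 c1} h => ((P8_ok r c).2.2 _ h).2.2.2.1,
      fun {r c r1 c1} h => ((P8_ok r c).2.2 _ h).2.2.2.2.1,
      fun {r c r1 c1} h => ((P8_ok r c).2.2 _ h).2.2.2.2.2⟩
  · intro i j hij
    rw [cov_P8, if_neg hij]
  · intro i
    rw [cov_P8, if_pos rfl]

end Pool.Agent.H22.HSQ
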