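import Pool.Agent.H22.HSQ.Defs

/-!
# Gluing latin squares along a common cell
-/

namespace Pool.Agent.H22.HSQ

open Pool.Agent.H51.Homog

section

variable {ι W : Type}

/-- the embedding of the `i`-th piece -/
def emb (i : ι) : Option W → Option (ι × W) := Option.map fun x => (i, x)

@[simp] lemma emb_none (i : ι) : emb (W := W) i none = none := rfl
@[simp] lemma emb_some (i : ι) (x : W) : emb i (some x) = some (i, x) := rfl

lemma emb_injective (i : ι) : Function.Injective (emb (W := W) i) := by
  intro a b h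
  cases a <;> cases b <;> simp_all [emb]

lemma emb_eq_none {i : ι} {a : Option W} : emb i a = none ↔ a = none := by
  cases a <;> simp

lemma emb_eq_some {i j : ι} {a : Option W} {x : W} :
    emb i a = some (j, x) ↔ i = j ∧ a = some x := by
  cases a <;> simp

open Classical in
/-- the glued square -/
noncomputable def gsq (i₀ : ι) (LO : ι × W → ι × W → ι × W)
    (A : ι → Option W → Option W → Option W) :
    Option (ι × W) → Option (ι × W) → Option (ι × W)
  | some (i, x), some (j, y) =>
      if i = j then emb i (A i (some x) (some y)) else some (LO (i, x) (j, y))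
  | some (i, x), none => emb i (A i (some x) none)
  | none, some (j, y) => emb j (A j none (some y))
  | none, none => emb i₀ (A i₀ none none)

/-- the glued system -/
def gsys (SO : ι × W → ι × W → ι × W → ι × W → Prop)
    (SA : ι → Option W → Option W → Option W → Option W → Prop)
    (R C R' C' : Option (ι × W)) : Prop :=
  (∃ i r c r' c', R = emb i r ∧ C = emb i c ∧ R' = emb i r' ∧ C' = emb i c' ∧ SA i r c r' c') ∨
    ∃ a b a' b', R = some a ∧ C = some b ∧ R' = some a' ∧ C' = some b' ∧ SO a b a' b'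

variable {h : ℕ} {V : ι → ι → ι} {LO : ι × W → ι × W → ι × W}
  {SO : ι × W → ι × W → ι × W → ι × W → Prop} {i₀ : ι}
  {A : ι → Option W → Option W → Option W}
  {SA : ι → Option W → Option W → Option W → Option W → Prop}

/-- on a piece the glued square is the given one -/
lemma gsq_emb (h0 : ∀ i, A i none none = none) (i : ι) (r c : Option W) :
    gsq i₀ LO A (emb i r) (emb i c) = emb i (A i r c) := by
  cases r <;> cases c <;> simp [gsq, h0]

lemma gsq_off {i j : ι} (hij : i ≠ j) (x y : W) :
    gsq i₀ LO A (some (i, x)) (some (j, y)) = some (LO (i, x) (j, y)) := by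
  simp [gsq, hij]

/-- every cell lies in a piece or over the off-diagonal -/
lemma cell_cases (i₀ : ι) (R C : Option (ι × W)) :
    (∃ i r c, R = emb i r ∧ C = emb i c) ∨
      ∃ i j x y, i ≠ j ∧ R = some (i, x) ∧ C = some (j, y) := by
  classical
  rcases R with _ | ⟨i, x⟩
  · rcases C with _ | ⟨j, y⟩
    · exact Or.inl ⟨i₀, none, none, rfl, rfl⟩
    · exact Or.inl ⟨j, none, some y, rfl, rfl⟩
  · rcases C with _ | ⟨j, y⟩
    · exact Or.inl ⟨i, some x, none, rfl, rfl⟩
    · by_cases hij : i = j
      · subst hij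
        exact Or.inl ⟨i, some x, some y, rfl, rfl⟩
      · exact Or.inr ⟨i, j, x, y, hij, rfl, rfl⟩

lemma gsq_transpose (i₀ : ι) (LO : ι × W → ι × W → ι × W)
    (A : ι → Option W → Option W → Option W) (R C : Option (ι × W)) :
    gsq i₀ (fun a b => LO b a) (fun i r c => A i c r) C R = gsq i₀ LO A R C := by
  rcases R with _ | ⟨i, x⟩ <;> rcases C with _ | ⟨j, y⟩ <;> simp only [gsq]
  by_cases hij : i = j
  · subst hij
    simp
  · simp [hij, Ne.symm hij]

lemma gsq_row_injective (hV : ∀ i, Function.Injective (V i)) (hid : ∀ i, V i i = i)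
    (hLO : ∀ a, Function.Injective (LO a)) (hp : ∀ i x j y, (LO (i, x) (j, y)).1 = V i j)
    (hA : ∀ i r, Function.Injective (A i r)) (h0 : ∀ i, A i none none = none)
    (R : Option (ι × W)) : Function.Injective (gsq i₀ LO A R) := by
  intro C D hCD
  -- the value in a piece
  rcases R with _ | ⟨i, x⟩
  · have key : ∀ j y, ∃ z, A j none (some y) = some z := fun j y => by
      rcases hz : A j none (some y) with _ | z
      · exact absurd (hA j none (hz.trans (h0 j).symm)) (by simp)
      · exact ⟨z, rfl⟩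
    rcases C with _ | ⟨j, y⟩ <;> rcases D with _ | ⟨k, z⟩
    · rfl
    · obtain ⟨u, hu⟩ := key k z
      simp [gsq, h0, hu] at hCD
    · obtain ⟨u, hu⟩ := key j y
      simp [gsq, h0, hu] at hCD
    · obtain ⟨u, hu⟩ := key j y
      obtain ⟨w, hw⟩ := key k z
      simp only [gsq, hu, hw, emb_some, Option.some.injEq, Prod.mk.injEq] at hCD
      obtain ⟨rfl, rfl⟩ := hCD
      have := hA j none (hu.trans hw.symm)
      simp only [Option.some.injEq] at this
      rw [this]
  · -- the columns of the piece `i` and the others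
    have cases2 : ∀ C : Option (ι × W), (∃ c, C = emb i c) ∨ ∃ j y, i ≠ j ∧ C = some (j, y) := by
      intro C
      rcases C with _ | ⟨j, y⟩
      · exact Or.inl ⟨none, rfl⟩
      · by_cases hij : i = j
        · subst hij
          exact Or.inl ⟨some y, rfl⟩
        · exact Or.inr ⟨j, y, hij, rfl⟩
    have e1 : ∀ c, gsq i₀ LO A (some (i, x)) (emb i c) = emb i (A i (some x) c) := fun c => by
      rw [← emb_some, gsq_emb h0]
    have noteq : ∀ c j y, i ≠ j →
        gsq i₀ LO A (some (i, x)) (emb i c) ≠ gsq i₀ LO A (some (i, x)) (some (j, y)) := by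
      intro c j y hij heq
      rw [e1, gsq_off hij] at heq
      have h1 : LO (i, x) (j, y) = ((LO (i, x) (j, y)).1, (LO (i, x) (j, y)).2) := rfl
      rw [h1, emb_eq_some, hp] at heq
      exact hij (hV i ((hid i).trans heq.1))
    rcases cases2 C with ⟨c, rfl⟩ | ⟨j, y, hj, rfl⟩ <;>
      rcases cases2 D with ⟨d, rfl⟩ | ⟨k, z, hk, rfl⟩
    · rw [e1, e1] at hCD
      rw [hA i _ (emb_injective i hCD)]
    · exact absurd hCD (noteq _ _ _ hk)
    · exact absurd hCD.symm (noteq _ _ _ hj)
    · rw [gsq_off hj, gsq_off hk, Option.some.injEq] at hCD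
      rw [hLO _ hCD]

lemma gsq_latin [Finite ι] [Finite W] (D : OffData h V LO SO) (hA : ∀ i, IsLatin (A i))
    (h0 : ∀ i, A i none none = none) : IsLatin (gsq i₀ LO A) := by
  constructor
  · intro R
    exact (gsq_row_injective (fun i => (D.latinV.1 i).1) D.idem (fun a => (D.latin.1 a).1)
      D.proj (fun i r => ((hA i).1 r).1) h0 R).bijective_of_finite
  · intro C
    have := (gsq_row_injective (i₀ := i₀) (V := fun i j => V j i) (LO := fun a b => LO b a)
      (A := fun i r c => A i c r) (fun i => (D.latinV.2 i).1) D.idem (fun a => (D.latin.2 a).1)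
      (fun i x j y => D.proj j y i x) (fun i r => ((hA i).2 r).1) h0 C).bijective_of_finite
    have e : (fun r => gsq i₀ LO A r C) =
        gsq i₀ (fun a b => LO b a) (fun i r c => A i c r) C := by
      funext r
      exact (gsq_transpose i₀ LO A r C).symm
    rw [e]
    exact this

lemma not_SO [Finite ι] [Finite W] (D : OffData h V LO SO) {i j : ι} {x y : W}
    {a' b' : ι × W} (hS : SO (i, x) (j, y) a' b') : i ≠ j := by
  rintro rfl
  have h1 := D.dia i x y
  rw [cov, Set.ncard_eq_zero (Set.toFinite _)] at h1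
  have : (a', b') ∈ {p : (ι × W) × (ι × W) | SO (i, x) (i, y) p.1 p.2} := hS
  rw [h1] at this
  exact this

lemma gsys_isSys [Finite ι] [Finite W] (D : OffData h V LO SO)
    (hS : ∀ i, IsSys (A i) (SA i)) (h0 : ∀ i, A i none none = none) :
    IsSys (gsq i₀ LO A) (gsys SO SA) := by
  constructor
  · rintro R C R' C' (⟨i, r, c, r', c', rfl, rfl, rfl, rfl, h1⟩ |
      ⟨a, b, a', b', rfl, rfl, rfl, rfl, h1⟩)
    · exact fun e => (hS i).ne_row h1 (emb_injective i e)
    · exact fun e => D.sys.ne_row h1 (Option.some.inj e)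
  · rintro R C R' C' (⟨i, r, c, r', c', rfl, rfl, rfl, rfl, h1⟩ |
      ⟨a, b, a', b', rfl, rfl, rfl, rfl, h1⟩)
    · exact fun e => (hS i).ne_col h1 (emb_injective i e)
    · exact fun e => D.sys.ne_col h1 (Option.some.inj e)
  · rintro R C R' C' (⟨i, r, c, r', c', rfl, rfl, rfl, rfl, h1⟩ |
      ⟨⟨i, x⟩, ⟨j, y⟩, ⟨i', x'⟩, ⟨j', y'⟩, rfl, rfl, rfl, rfl, h1⟩)
    · rw [gsq_emb h0, gsq_emb h0, (hS i).diag h1]
    · rw [gsq_off (not_SO D h1), gsq_off (not_SO D (D.sys.swap_row (D.sys.swap_col h1))),
        D.sys.diag h1]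
  · rintro R C R' C' (⟨i, r, c, r', c', rfl, rfl, rfl, rfl, h1⟩ |
      ⟨⟨i, x⟩, ⟨j, y⟩, ⟨i', x'⟩, ⟨j', y'⟩, rfl, rfl, rfl, rfl, h1⟩)
    · rw [gsq_emb h0, gsq_emb h0, (hS i).anti h1]
    · rw [gsq_off (not_SO D (D.sys.swap_row h1)), gsq_off (not_SO D (D.sys.swap_col h1)),
        D.sys.anti h1]
  · rintro R C R' C' (⟨i, r, c, r', c', rfl, rfl, rfl, rfl, h1⟩ |
      ⟨a, b, a', b', rfl, rfl, rfl, rfl, h1⟩)
    · exact Or.inl ⟨i, r', c, r, c', rfl, rfl, rfl, rfl, (hS i).swap_row h1⟩
    · exact Or.inr ⟨a', b, a, b', rfl, rfl, rfl, rfl, D.sys.swap_row h1⟩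
  · rintro R C R' C' (⟨i, r, c, r', c', rfl, rfl, rfl, rfl, h1⟩ |
      ⟨a, b, a', b', rfl, rfl, rfl, rfl, h1⟩)
    · exact Or.inl ⟨i, r, c', r', c, rfl, rfl, rfl, rfl, (hS i).swap_col h1⟩
    · exact Or.inr ⟨a, b', a', b, rfl, rfl, rfl, rfl, D.sys.swap_col h1⟩

/-- the coverage inside a piece -/
lemma cov_piece [Finite ι] [Finite W] (D : OffData h V LO SO) {i : ι} {r c : Option W}
    (hi : ∀ j, j ≠ i → (r, c) = (none, none) → ∀ r' c', ¬ SA j none none r' c') :
    cov (gsys SO SA) (emb i r) (emb i c) = cov (SA i) r c := by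
  have hset : {p : Option (ι × W) × Option (ι × W) | gsys SO SA (emb i r) (emb i c) p.1 p.2} =
      (fun p : Option W × Option W => (emb i p.1, emb i p.2)) ''
        {p | SA i r c p.1 p.2} := by
    ext ⟨R', C'⟩
    simp only [Set.mem_ofPred_eq, Set.mem_image, Prod.exists, Prod.mk.injEq]
    constructor
    · rintro (⟨j, r1, c1, r', c', h1, h2, rfl, rfl, h3⟩ | ⟨⟨j, x⟩, ⟨k, y⟩, a', b', h1, h2, rfl, rfl, h3⟩)
      · by_cases hji : j = i
        · subst hji
          rw [← emb_injective j h1, ← emb_injective j h2] at h3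
          exact ⟨r', c', h3, rfl, rfl⟩
        · exfalso
          have hr : r = none := by
            rcases r with _ | x
            · rfl
            · rw [emb_some, eq_comm, emb_eq_some] at h1
              exact absurd h1.1 hji
          have hc : c = none := by
            rcases c with _ | x
            · rfl
            · rw [emb_some, eq_comm, emb_eq_some] at h2
              exact absurd h2.1 hji
          subst hr hc
          rw [emb_none, eq_comm, emb_eq_none] at h1 h2
          subst h1 h2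
          exact hi j hji rfl r' c' h3
      · rw [emb_eq_some] at h1 h2
        obtain ⟨rfl, rfl⟩ := h1
        obtain ⟨rfl, rfl⟩ := h2
        exact absurd rfl (not_SO D h3)
    · rintro ⟨r', c', h1, rfl, rfl⟩
      exact Or.inl ⟨i, r, c, r', c', rfl, rfl, rfl, rfl, h1⟩
  rw [cov, hset, Set.ncard_image_of_injective, cov]
  rintro ⟨a, b⟩ ⟨a', b'⟩ hab
  simp only [Prod.mk.injEq] at hab
  rw [emb_injective i hab.1, emb_injective i hab.2]

/-- the coverage over the off-diagonal -/
lemma cov_off {i j : ι} (hij : i ≠ j) (x y : W) :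
    cov (gsys SO SA) (some (i, x)) (some (j, y)) = cov SO (i, x) (j, y) := by
  have hset : {p : Option (ι × W) × Option (ι × W) |
        gsys SO SA (some (i, x)) (some (j, y)) p.1 p.2} =
      (fun p : (ι × W) × (ι × W) => (some p.1, some p.2)) ''
        {p | SO (i, x) (j, y) p.1 p.2} := by
    ext ⟨R', C'⟩
    simp only [Set.mem_ofPred_eq, Set.mem_image, Prod.mk.injEq]
    constructor
    · rintro (⟨k, r1, c1, r', c', h1, h2, rfl, rfl, h3⟩ | ⟨a, b, a', b', h1, h2, rfl, rfl, h3⟩)
      · rw [eq_comm, emb_eq_some] at h1 h2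
        exact absurd (h1.1.symm.trans h2.1) hij
      · rw [Option.some.injEq] at h1 h2
        subst h1 h2
        exact ⟨(a', b'), h3, rfl, rfl⟩
    · rintro ⟨⟨a', b'⟩, h1, rfl, rfl⟩
      exact Or.inr ⟨(i, x), (j, y), a', b', rfl, rfl, rfl, rfl, h1⟩
  rw [cov, hset, Set.ncard_image_of_injective, cov]
  rintro ⟨a, b⟩ ⟨a', b'⟩ hab
  simpa using hab

end

/-- Gluing along a common cell. -/
theorem glue {ι W : Type} [Fintype ι] [Fintype W] {h : ℕ} {V : ι → ι → ι}
    {LO : ι × W → ι × W → ι × W} {SO : ι × W → ι × W → ι × W → ι × W → Prop}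
    (D : OffData h V LO SO) (i₀ : ι) (A : ι → Option W → Option W → Option W)
    (SA : ι → Option W → Option W → Option W → Option W → Prop)
    (hA : ∀ i, IsLatin (A i)) (hS : ∀ i, IsSys (A i) (SA i)) (h0 : ∀ i, A i none none = none)
    (hc : ∀ i r c, (r, c) ≠ (none, none) → cov (SA i) r c = h)
    (hn : ∀ i, i ≠ i₀ → cov (SA i) none none = 0) :
    ∃ (L : Option (ι × W) → Option (ι × W) → Option (ι × W))
      (S : Option (ι × W) → Option (ι × W) → Option (ι × W) → Option (ι × W) → Prop),
      IsLatin L ∧ IsSys L S ∧ cov S none none = cov (SA i₀) none none ∧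
        ∀ r c, (r, c) ≠ (none, none) → cov S r c = h := by
  refine ⟨gsq i₀ LO A, gsys SO SA, gsq_latin D hA h0, gsys_isSys D hS h0, ?_, ?_⟩
  · have := cov_piece (SA := SA) D (i := i₀) (r := none) (c := none) (by
      intro j hj _ r' c' h1
      have h2 := hn j hj
      rw [cov, Set.ncard_eq_zero (Set.toFinite _)] at h2
      have : (r', c') ∈ {p : Option W × Option W | SA j none none p.1 p.2} := h1
      rw [h2] at this
      exact this)
    exact this
  · intro R C hRC
    rcases cell_cases i₀ R C with ⟨i, r, c, rfl, rfl⟩ | ⟨i, j, x, y, hij, rfl, rfl⟩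
    · have hrc : (r, c) ≠ (none, none) := by
        intro e
        simp only [Prod.mk.injEq] at e
        obtain ⟨rfl, rfl⟩ := e
        exact hRC rfl
      rw [cov_piece D (fun j _ e => absurd e hrc), hc i r c hrc]
    · rw [cov_off hij, D.off i x j y hij]

end Pool.Agent.H22.HSQ
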