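import Pool.Agent.H22.HSQ.Defs

/-!
Row IDE of the board hsq_modules: idempotent latin squares of all orders at least 3.
-/

namespace Pool.Agent.H22.HSQ

open Pool.Agent.H51.Homog

theorem idem_fin {v : ℕ} {α : Type} [Fintype α] (hc : Fintype.card α = v) (V : α → α → α)
    (hr : ∀ r a b, V r a = V r b → a = b) (hcl : ∀ c a b, V a c = V b c → a = b)
    (hi : ∀ x, V x x = x) : ∃ V : Fin v → Fin v → Fin v, IsLatin V ∧ ∀ x, V x x = x := by
  let e : α ≃ Fin v := Fintype.equivFinOfCardEq hc
  refine ⟨fun x y => e (V (e.symm x) (e.symm y)), ⟨fun r => ?_, fun c => ?_⟩, fun x => ?_⟩
  · refine Finite.injective_iff_bijective.1 fun a b h => ?_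
    exact e.symm.injective (hr _ _ _ (e.injective h))
  · refine Finite.injective_iff_bijective.1 fun a b h => ?_
    exact e.symm.injective (hcl _ _ _ (e.injective h))
  · show e (V (e.symm x) (e.symm x)) = x
    rw [hi, e.apply_symm_apply]

open Classical in
/-- the square of even order -/
noncomputable def VE {u : ℕ} (t : ZMod u) :
    Option (ZMod u) → Option (ZMod u) → Option (ZMod u)
  | some x, some y => if y = x + 1 then none else some ((x + y) * t)
  | some x, none => some (x + t)
  | none, some y => some (y - t)
  | none, none => none

theorem exists_half {u : ℕ} (hu : Odd u) : ∃ t : ZMod u, 2 * t = 1 := by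
  have hco : Nat.Coprime 2 u := (Nat.coprime_two_left).2 hu
  refine ⟨((ZMod.unitOfCoprime 2 hco)⁻¹ : (ZMod u)ˣ), ?_⟩
  have h := (ZMod.unitOfCoprime 2 hco).mul_inv
  rw [ZMod.coe_unitOfCoprime] at h
  exact_mod_cast h

theorem exists_idempotent {v : ℕ} (hv : 3 ≤ v) :
    ∃ V : Fin v → Fin v → Fin v, IsLatin V ∧ ∀ x, V x x = x := by
  rcases Nat.even_or_odd v with he | ho
  · obtain ⟨u, rfl⟩ : ∃ u, v = u + 1 := ⟨v - 1, by omega⟩
    have hu : Odd u := by
      rw [Nat.odd_iff]
      rw [Nat.even_iff] at he
      omega
    obtain ⟨t, ht⟩ := exists_half hu
    have : NeZero u := ⟨by omega⟩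
    have : Fact (1 < u) := ⟨by
      rw [Nat.odd_iff] at hu
      omega⟩
    have h10 : (1 : ZMod u) ≠ 0 := one_ne_zero
    have hcan : ∀ a b : ZMod u, a * t = b * t → a = b := by
      intro a b h
      have h2 : a * (2 * t) = b * (2 * t) := by
        calc a * (2 * t) = 2 * (a * t) := by ring
          _ = 2 * (b * t) := by rw [h]
          _ = b * (2 * t) := by ring
      rwa [ht, mul_one, mul_one] at h2
    refine idem_fin (α := Option (ZMod u)) ?_ (VE t) ?_ ?_ ?_
    · rw [Fintype.card_option, ZMod.card]
    · rintro (_ | x) (_ | y) (_ | y') h
      · rfl
      · exact absurd h (by simp [VE])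
      · exact absurd h (by simp [VE])
      · simp only [VE, Option.some.injEq, sub_left_inj] at h
        rw [h]
      · rfl
      · simp only [VE] at h
        by_cases h1 : y' = x + 1
        · rw [if_pos h1] at h
          exact absurd h (by simp)
        · rw [if_neg h1, Option.some.injEq] at h
          exfalso
          apply h1
          have h2 : (x + y') * t = (2 * x + 1) * t := by
            rw [← h]
            have : (2 * x + 1) * t = x * (2 * t) + t := by ring
            rw [this, ht, mul_one]
          have h3 := hcan _ _ h2
          linear_combination h3
      · simp only [VE] at h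
        by_cases h1 : y = x + 1
        · rw [if_pos h1] at h
          exact absurd h (by simp)
        · rw [if_neg h1, Option.some.injEq] at h
          exfalso
          apply h1
          have h2 : (x + y) * t = (2 * x + 1) * t := by
            rw [h]
            have : (2 * x + 1) * t = x * (2 * t) + t := by ring
            rw [this, ht, mul_one]
          have h3 := hcan _ _ h2
          linear_combination h3
      · simp only [VE] at h
        by_cases h1 : y = x + 1
        · by_cases h2 : y' = x + 1
          · rw [h1, h2]
          · rw [if_pos h1, if_neg h2] at h
            exact absurd h (by simp)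
        · by_cases h2 : y' = x + 1
          · rw [if_neg h1, if_pos h2] at h
            exact absurd h (by simp)
          · rw [if_neg h1, if_neg h2, Option.some.injEq] at h
            have h3 := hcan _ _ h
            rw [add_left_cancel h3]
    · rintro (_ | y) (_ | x) (_ | x') h
      · rfl
      · exact absurd h (by simp [VE])
      · exact absurd h (by simp [VE])
      · simp only [VE, Option.some.injEq, add_left_inj] at h
        rw [h]
      · rfl
      · simp only [VE] at h
        by_cases h1 : y = x' + 1
        · rw [if_pos h1] at h
          exact absurd h (by simp)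
        · rw [if_neg h1, Option.some.injEq] at h
          exfalso
          apply h1
          have h2 : (x' + y) * t = (2 * y - 1) * t := by
            rw [← h]
            have : (2 * y - 1) * t = y * (2 * t) - t := by ring
            rw [this, ht, mul_one]
          have h3 := hcan _ _ h2
          linear_combination -h3
      · simp only [VE] at h
        by_cases h1 : y = x + 1
        · rw [if_pos h1] at h
          exact absurd h (by simp)
        · rw [if_neg h1, Option.some.injEq] at h
          exfalso
          apply h1
          have h2 : (x + y) * t = (2 * y - 1) * t := by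
            rw [h]
            have : (2 * y - 1) * t = y * (2 * t) - t := by ring
            rw [this, ht, mul_one]
          have h3 := hcan _ _ h2
          linear_combination -h3
      · simp only [VE] at h
        by_cases h1 : y = x + 1
        · by_cases h2 : y = x' + 1
          · rw [h1] at h2
            rw [add_right_cancel h2]
          · rw [if_pos h1, if_neg h2] at h
            exact absurd h (by simp)
        · by_cases h2 : y = x' + 1
          · rw [if_neg h1, if_pos h2] at h
            exact absurd h (by simp)
          · rw [if_neg h1, if_neg h2, Option.some.injEq] at h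
            have h3 := hcan _ _ h
            rw [add_right_cancel h3]
    · rintro (_ | x)
      · rfl
      · simp only [VE]
        rw [if_neg]
        · have : (x + x) * t = x * (2 * t) := by ring
          rw [this, ht, mul_one]
        · intro h
          exact h10 (left_eq_add.1 h)
  · obtain ⟨t, ht⟩ := exists_half ho
    have : NeZero v := ⟨by omega⟩
    have hcan : ∀ a b : ZMod v, a * t = b * t → a = b := by
      intro a b h
      have h2 : a * (2 * t) = b * (2 * t) := by
        calc a * (2 * t) = 2 * (a * t) := by ring
          _ = 2 * (b * t) := by rw [h]
          _ = b * (2 * t) := by ring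
      rwa [ht, mul_one, mul_one] at h2
    refine idem_fin (α := ZMod v) (ZMod.card v) (fun x y => (x + y) * t) ?_ ?_ ?_
    · intro r a b h
      exact add_left_cancel (hcan _ _ h)
    · intro c a b h
      exact add_right_cancel (hcan _ _ h)
    · intro x
      show (x + x) * t = x
      have : (x + x) * t = x * (2 * t) := by ring
      rw [this, ht, mul_one]

end Pool.Agent.H22.HSQ
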