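import Pool.Agent.H22.HSQ.Defs
import Pool.Agent.H22.HSQ.Iso

/-!
# Off-diagonal parts
-/

namespace Pool.Agent.H22.HSQ

open Pool.Agent.H51.Homog

theorem offData_of_base {v w h : ℕ} {V : Fin v → Fin v → Fin v} (hV : IsLatin V)
    (hid : ∀ i, V i i = i) (H : Base h w) :
    ∃ (LO : Fin v × Fin w → Fin v × Fin w → Fin v × Fin w)
      (SO : Fin v × Fin w → Fin v × Fin w → Fin v × Fin w → Fin v × Fin w → Prop),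
      OffData h V LO SO := by
  classical
  obtain ⟨α, _, L₀, S₀, hc, hL₀, hS₀, hcov₀⟩ := H
  let e : α ≃ Fin w := Fintype.equivOfCardEq (by rw [hc, Fintype.card_fin])
  obtain ⟨hL, hS, h3⟩ := iso_transport e e e hL₀ hS₀
  set L : Fin w → Fin w → Fin w := fun r c => e (L₀ (e.symm r) (e.symm c)) with hLdef
  set S : Fin w → Fin w → Fin w → Fin w → Prop :=
    fun r c r' c' => S₀ (e.symm r) (e.symm c) (e.symm r') (e.symm c') with hSdef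
  have hcov : ∀ r c, cov S r c = h := fun r c => by rw [h3, hcov₀]
  refine ⟨fun a b => (V a.1 b.1, L a.2 b.2),
    fun a b a' b' => a.1 ≠ b.1 ∧ a'.1 = a.1 ∧ b'.1 = b.1 ∧ S a.2 b.2 a'.2 b'.2,
    ⟨hV, hid, ⟨?_, ?_⟩, fun _ _ _ _ => rfl, ⟨?_, ?_, ?_, ?_, ?_, ?_⟩, ?_, ?_⟩⟩
  · rintro ⟨i, x⟩
    exact (hV.1 i).prodMap (hL.1 x)
  · rintro ⟨j, y⟩
    exact (hV.2 j).prodMap (hL.2 y)
  · rintro ⟨i, x⟩ ⟨j, y⟩ ⟨i', x'⟩ ⟨j', y'⟩ ⟨-, -, -, h4⟩ e1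
    exact hS.ne_row h4 (congrArg Prod.snd e1)
  · rintro ⟨i, x⟩ ⟨j, y⟩ ⟨i', x'⟩ ⟨j', y'⟩ ⟨-, -, -, h4⟩ e1
    exact hS.ne_col h4 (congrArg Prod.snd e1)
  · rintro ⟨i, x⟩ ⟨j, y⟩ ⟨i', x'⟩ ⟨j', y'⟩ ⟨h1, h2, h3, h4⟩
    simp only at h1 h2 h3 h4
    subst h2 h3
    exact Prod.ext rfl (hS.diag h4)
  · rintro ⟨i, x⟩ ⟨j, y⟩ ⟨i', x'⟩ ⟨j', y'⟩ ⟨h1, h2, h3, h4⟩
    simp only at h1 h2 h3 h4
    subst h2 h3
    exact Prod.ext rfl (hS.anti h4)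
  · rintro ⟨i, x⟩ ⟨j, y⟩ ⟨i', x'⟩ ⟨j', y'⟩ ⟨h1, h2, h3, h4⟩
    simp only at h1 h2 h3 h4
    subst h2 h3
    exact ⟨h1, rfl, rfl, hS.swap_row h4⟩
  · rintro ⟨i, x⟩ ⟨j, y⟩ ⟨i', x'⟩ ⟨j', y'⟩ ⟨h1, h2, h3, h4⟩
    simp only at h1 h2 h3 h4
    subst h2 h3
    exact ⟨h1, rfl, rfl, hS.swap_col h4⟩
  · intro i x j y hij
    have hset : {p : (Fin v × Fin w) × (Fin v × Fin w) | (i, x).1 ≠ (j, y).1 ∧
        p.1.1 = (i, x).1 ∧ p.2.1 = (j, y).1 ∧ S (i, x).2 (j, y).2 p.1.2 p.2.2} =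
        (fun q : Fin w × Fin w => ((i, q.1), (j, q.2))) '' {q | S x y q.1 q.2} := by
      ext ⟨⟨i', x'⟩, ⟨j', y'⟩⟩
      simp only [Set.mem_ofPred_eq, Set.mem_image, Prod.exists, Prod.mk.injEq]
      constructor
      · rintro ⟨-, rfl, rfl, h4⟩
        exact ⟨x', y', h4, ⟨rfl, rfl⟩, rfl, rfl⟩
      · rintro ⟨a, b, h4, ⟨rfl, rfl⟩, rfl, rfl⟩
        exact ⟨hij, rfl, rfl, h4⟩
    rw [cov, hset, Set.ncard_image_of_injective, ← hcov x y, cov]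
    rintro ⟨a, b⟩ ⟨a', b'⟩ hab
    simpa using hab
  · intro i x y
    rw [cov, Set.ncard_eq_zero (Set.toFinite _)]
    ext p
    simp

theorem offData_of_frame {v w h : ℕ} {V : Fin v → Fin v → Fin v}
    {S : Fin v → Fin v → Fin v → Fin v → Prop} (hV : IsLatin V) (hid : ∀ i, V i i = i)
    (hS : IsSys V S) (hoff : ∀ i j, i ≠ j → cov S i j = h) (hdia : ∀ i, cov S i i = 0)
    (hw : 0 < w) :
    ∃ (LO : Fin v × Fin w → Fin v × Fin w → Fin v × Fin w)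
      (SO : Fin v × Fin w → Fin v × Fin w → Fin v × Fin w → Fin v × Fin w → Prop),
      OffData h V LO SO := by
  classical
  have : NeZero w := ⟨hw.ne'⟩
  have hcov : ∀ i j x y, cov (fun a b a' b' : Fin v × Fin w =>
      S a.1 b.1 a'.1 b'.1 ∧ a'.2 = a.2 ∧ b'.2 = b.2) (i, x) (j, y) = cov S i j := by
    intro i j x y
    have hset : {p : (Fin v × Fin w) × (Fin v × Fin w) |
        S (i, x).1 (j, y).1 p.1.1 p.2.1 ∧ p.1.2 = (i, x).2 ∧ p.2.2 = (j, y).2} =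
        (fun q : Fin v × Fin v => ((q.1, x), (q.2, y))) '' {q | S i j q.1 q.2} := by
      ext ⟨⟨i', x'⟩, ⟨j', y'⟩⟩
      simp only [Set.mem_ofPred_eq, Set.mem_image, Prod.exists, Prod.mk.injEq]
      constructor
      · rintro ⟨h4, rfl, rfl⟩
        exact ⟨i', j', h4, ⟨rfl, rfl⟩, rfl, rfl⟩
      · rintro ⟨a, b, h4, ⟨rfl, rfl⟩, rfl, rfl⟩
        exact ⟨h4, rfl, rfl⟩
    rw [cov, hset, Set.ncard_image_of_injective, cov]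
    rintro ⟨a, b⟩ ⟨a', b'⟩ hab
    simpa using hab
  refine ⟨fun a b => (V a.1 b.1, a.2 + b.2),
    fun a b a' b' => S a.1 b.1 a'.1 b'.1 ∧ a'.2 = a.2 ∧ b'.2 = b.2,
    ⟨hV, hid, ⟨?_, ?_⟩, fun _ _ _ _ => rfl, ⟨?_, ?_, ?_, ?_, ?_, ?_⟩, ?_, ?_⟩⟩
  · rintro ⟨i, x⟩
    exact (hV.1 i).prodMap (Equiv.addLeft x).bijective
  · rintro ⟨j, y⟩
    exact (hV.2 j).prodMap (Equiv.addRight y).bijective
  · rintro ⟨i, x⟩ ⟨j, y⟩ ⟨i', x'⟩ ⟨j', y'⟩ ⟨h4, -, -⟩ e1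
    exact hS.ne_row h4 (congrArg Prod.fst e1)
  · rintro ⟨i, x⟩ ⟨j, y⟩ ⟨i', x'⟩ ⟨j', y'⟩ ⟨h4, -, -⟩ e1
    exact hS.ne_col h4 (congrArg Prod.fst e1)
  · rintro ⟨i, x⟩ ⟨j, y⟩ ⟨i', x'⟩ ⟨j', y'⟩ ⟨h4, h2, h3⟩
    simp only at h2 h3 h4
    subst h2 h3
    exact Prod.ext (hS.diag h4) rfl
  · rintro ⟨i, x⟩ ⟨j, y⟩ ⟨i', x'⟩ ⟨j', y'⟩ ⟨h4, h2, h3⟩
    simp only at h2 h3 h4
    subst h2 h3
    exact Prod.ext (hS.anti h4) rfl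
  · rintro ⟨i, x⟩ ⟨j, y⟩ ⟨i', x'⟩ ⟨j', y'⟩ ⟨h4, h2, h3⟩
    exact ⟨hS.swap_row h4, h2.symm, h3⟩
  · rintro ⟨i, x⟩ ⟨j, y⟩ ⟨i', x'⟩ ⟨j', y'⟩ ⟨h4, h2, h3⟩
    exact ⟨hS.swap_col h4, h2, h3.symm⟩
  · intro i x j y hij
    rw [hcov, hoff i j hij]
  · intro i x y
    rw [hcov, hdia]

end Pool.Agent.H22.HSQ
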