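import Pool.Agent.H22.HSQ.Defs

/-!
Row TAB of the board hsq_modules: a latin square of order 16 with one uncovered cell.
-/

namespace Pool.Agent.H22.HSQ

open Pool.Agent.H51.Homog

/-- the directions: the partners of the cell `(r, c)` are `(r xor d, c xor d)` -/
def D16 : Fin 16 → Fin 16 → List (Fin 16) :=
  ![![[], [9, 11, 13, 14], [1, 5, 9, 15], [1, 4, 8, 14], [1, 2, 10, 13], [1, 3, 11, 12], [2, 3, 8, 15], [4, 5, 10, 12], [2, 4, 7, 9], [7, 12, 13, 15], [2, 5, 6, 11], [6, 8, 9, 12], [3, 4, 6, 13], [6, 10, 14, 15], [7, 8, 10, 11], [3, 5, 7, 14]],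
    ![[9, 11, 13, 14], [9, 11, 13, 14], [1, 9, 11, 13], [1, 11, 13, 14], [1, 9, 11, 14], [1, 9, 13, 14], [9, 11, 13, 14], [9, 11, 13, 14], [9, 11, 13, 14], [7, 9, 11, 14], [6, 11, 13, 14], [9, 11, 13, 14], [6, 9, 11, 13], [9, 11, 13, 14], [7, 9, 13, 14], [9, 11, 13, 14]],
    ![[1, 5, 9, 15], [1, 5, 14, 15], [1, 5, 9, 15], [1, 5, 9, 15], [1, 2, 5, 9], [1, 5, 9, 15], [2, 5, 9, 15], [5, 9, 12, 15], [1, 2, 5, 15], [1, 5, 9, 15], [1, 2, 9, 15], [1, 5, 9, 12], [1, 5, 9, 15], [1, 5, 9, 15], [1, 5, 9, 15], [1, 9, 14, 15]],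
    ![[1, 4, 8, 14], [1, 4, 8, 9], [1, 4, 8, 14], [1, 4, 8, 14], [1, 4, 8, 14], [1, 3, 4, 14], [3, 4, 8, 14], [4, 8, 10, 14], [1, 8, 9, 14], [1, 4, 8, 14], [1, 4, 8, 14], [1, 4, 8, 14], [1, 3, 8, 14], [1, 4, 10, 14], [1, 4, 8, 14], [1, 3, 4, 8]],
    ![[1, 2, 10, 13], [1, 2, 10, 13], [2, 10, 13, 15], [2, 4, 10, 13], [1, 2, 10, 13], [1, 2, 10, 11], [1, 2, 10, 13], [1, 2, 4, 13], [1, 2, 4, 10], [1, 2, 10, 13], [1, 2, 10, 13], [1, 2, 10, 13], [1, 4, 10, 13], [1, 2, 13, 15], [1, 10, 11, 13], [1, 2, 10, 13]],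
    ![[1, 3, 11, 12], [1, 3, 11, 12], [3, 5, 11, 12], [3, 8, 11, 12], [1, 3, 12, 13], [1, 3, 11, 12], [1, 3, 11, 12], [1, 3, 5, 11], [1, 3, 11, 12], [1, 11, 12, 13], [1, 5, 11, 12], [1, 3, 8, 11], [1, 3, 11, 12], [1, 3, 11, 12], [1, 3, 11, 12], [1, 3, 5, 12]],
    ![[2, 3, 8, 15], [2, 3, 8, 15], [1, 2, 3, 8], [1, 2, 3, 15], [2, 3, 8, 15], [2, 3, 8, 15], [2, 3, 8, 15], [2, 3, 8, 15], [2, 3, 8, 15], [2, 7, 8, 15], [2, 6, 8, 15], [2, 3, 6, 15], [3, 6, 8, 15], [2, 3, 6, 8], [3, 7, 8, 15], [2, 3, 8, 15]],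
    ![[4, 5, 10, 12], [4, 5, 10, 12], [1, 4, 5, 10], [1, 4, 5, 12], [4, 5, 10, 12], [4, 5, 10, 12], [4, 5, 10, 12], [4, 5, 10, 12], [5, 7, 10, 12], [4, 5, 7, 12], [4, 6, 10, 12], [4, 5, 10, 12], [5, 6, 10, 12], [4, 5, 10, 12], [4, 5, 7, 10], [4, 7, 10, 12]],
    ![[2, 4, 7, 9], [2, 4, 7, 9], [2, 4, 7, 9], [2, 4, 7, 8], [4, 7, 9, 13], [2, 4, 7, 9], [4, 7, 8, 9], [2, 4, 7, 9], [2, 4, 7, 9], [2, 4, 9, 13], [2, 4, 5, 7], [2, 7, 8, 9], [2, 4, 7, 9], [2, 4, 7, 9], [2, 4, 8, 9], [2, 5, 7, 9]],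
    ![[7, 12, 13, 15], [9, 12, 13, 15], [7, 9, 12, 13], [7, 12, 13, 15], [7, 12, 13, 15], [3, 7, 12, 15], [3, 12, 13, 15], [7, 10, 13, 15], [7, 9, 12, 15], [7, 12, 13, 15], [7, 12, 13, 15], [7, 9, 13, 15], [7, 12, 13, 15], [7, 10, 12, 13], [7, 12, 13, 15], [7, 12, 13, 15]],
    ![[2, 5, 6, 11], [2, 5, 9, 11], [2, 5, 6, 11], [2, 5, 6, 11], [5, 6, 10, 11], [2, 3, 5, 6], [3, 5, 6, 11], [2, 5, 10, 11], [2, 6, 9, 11], [2, 5, 6, 11], [2, 5, 6, 11], [2, 5, 6, 11], [2, 5, 6, 11], [2, 6, 10, 11], [2, 5, 6, 10], [2, 5, 6, 11]],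
    ![[6, 8, 9, 12], [6, 8, 11, 12], [6, 8, 9, 15], [6, 8, 9, 12], [6, 8, 9, 12], [6, 9, 11, 12], [6, 8, 9, 12], [6, 8, 9, 12], [4, 6, 8, 12], [6, 8, 9, 12], [8, 9, 11, 12], [6, 8, 9, 12], [4, 8, 9, 12], [6, 9, 12, 15], [6, 8, 9, 11], [6, 8, 9, 12]],
    ![[3, 4, 6, 13], [3, 4, 13, 14], [3, 4, 6, 13], [3, 4, 6, 13], [2, 3, 4, 6], [4, 6, 12, 13], [2, 4, 6, 13], [3, 4, 12, 13], [3, 4, 6, 13], [3, 4, 6, 12], [3, 4, 6, 13], [3, 6, 12, 13], [3, 4, 6, 13], [3, 4, 6, 13], [3, 4, 6, 13], [3, 6, 13, 14]],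
    ![[6, 10, 14, 15], [6, 10, 13, 15], [6, 10, 14, 15], [6, 8, 14, 15], [6, 10, 13, 14], [6, 10, 14, 15], [6, 10, 14, 15], [6, 10, 14, 15], [6, 10, 14, 15], [6, 13, 14, 15], [5, 10, 14, 15], [6, 8, 10, 14], [10, 13, 14, 15], [6, 10, 14, 15], [6, 10, 14, 15], [5, 6, 10, 15]],
    ![[7, 8, 10, 11], [8, 10, 11, 14], [7, 8, 10, 11], [7, 10, 11, 14], [2, 7, 8, 10], [7, 8, 10, 11], [2, 8, 10, 11], [7, 8, 11, 12], [7, 8, 10, 11], [7, 8, 10, 11], [7, 8, 10, 11], [7, 10, 11, 12], [7, 8, 10, 11], [7, 8, 11, 14], [7, 8, 10, 11], [7, 8, 10, 14]],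
    ![[3, 5, 7, 14], [3, 5, 7, 14], [3, 5, 7, 15], [3, 5, 7, 14], [3, 5, 7, 14], [5, 7, 11, 14], [5, 7, 14, 15], [3, 5, 7, 14], [3, 4, 7, 14], [3, 5, 14, 15], [3, 5, 7, 14], [3, 5, 7, 14], [3, 4, 5, 7], [3, 7, 14, 15], [3, 5, 11, 14], [3, 5, 7, 14]]]

/-- the latin square -/
def L16 (r c : Fin 16) : Fin 16 := r ^^^ c

theorem L16_cancel : ∀ r d : Fin 16, L16 (L16 r d) d = r := by decide

theorem L16_comm : ∀ r d : Fin 16, L16 r d = L16 d r := by decide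

theorem L16_zero : ∀ r d : Fin 16, L16 r d = r → d = 0 := by decide

theorem L16_assoc : ∀ r c d : Fin 16, L16 (L16 r c) d = L16 r (L16 c d) := by decide +kernel

theorem D16_ok : ∀ r c : Fin 16, (D16 r c).Nodup ∧
    (D16 r c).length = (if r = 0 ∧ c = 0 then 0 else 4) ∧
    ∀ d ∈ D16 r c, d ≠ 0 ∧ d ∈ D16 (L16 r d) c ∧ d ∈ D16 r (L16 c d) := by decide +kernel

/-- the intercalates -/
def S16 (r c r1 c1 : Fin 16) : Prop := ∃ d ∈ D16 r c, r1 = L16 r d ∧ c1 = L16 c d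

theorem L16_inj (r : Fin 16) : Function.Injective (L16 r) := by
  intro a b h
  rw [← L16_cancel a r, ← L16_cancel b r, L16_comm a, L16_comm b, h]

theorem cov_S16 (r c : Fin 16) : cov S16 r c = (if r = 0 ∧ c = 0 then 0 else 4) := by
  obtain ⟨h1, h2, -⟩ := D16_ok r c
  unfold cov S16
  have h3 : {p : Fin 16 × Fin 16 | ∃ d ∈ D16 r c, p.1 = L16 r d ∧ p.2 = L16 c d} =
      (fun d => (L16 r d, L16 c d)) '' ((D16 r c).toFinset : Set (Fin 16)) := by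
    ext ⟨a, b⟩
    constructor
    · rintro ⟨d, hd, ha, hb⟩
      exact ⟨d, by simpa using hd, Prod.ext ha.symm hb.symm⟩
    · rintro ⟨d, hd, h⟩
      exact ⟨d, by simpa using hd, (congrArg Prod.fst h).symm, (congrArg Prod.snd h).symm⟩
  rw [h3, Set.ncard_image_of_injective, Set.ncard_coe_finset, List.toFinset_card_of_nodup h1, h2]
  intro a b h
  exact L16_inj r (congrArg Prod.fst h)

theorem base1_sixteen : Base1 4 16 := by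
  refine ⟨Fin 16, inferInstance, L16, S16, 0, 0, Fintype.card_fin 16, ?_, ?_, ?_, ?_⟩
  · refine ⟨fun r => Finite.injective_iff_bijective.1 (L16_inj r),
      fun c => Finite.injective_iff_bijective.1 fun a b h => ?_⟩
    have h' : L16 a c = L16 b c := h
    rw [L16_comm a, L16_comm b] at h'
    exact L16_inj c h'
  · refine ⟨?_, ?_, ?_, ?_, ?_, ?_⟩
    · rintro r c r1 c1 ⟨d, hd, rfl, rfl⟩ he
      exact ((D16_ok r c).2.2 d hd).1 (L16_zero r d he)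
    · rintro r c r1 c1 ⟨d, hd, rfl, rfl⟩ he
      exact ((D16_ok r c).2.2 d hd).1 (L16_zero c d he)
    · rintro r c r1 c1 ⟨d, hd, rfl, rfl⟩
      rw [L16_assoc, L16_comm d, L16_cancel]
    · rintro r c r1 c1 ⟨d, hd, rfl, rfl⟩
      rw [L16_assoc, L16_comm d]
    · rintro r c r1 c1 ⟨d, hd, rfl, rfl⟩
      exact ⟨d, ((D16_ok r c).2.2 d hd).2.1, (L16_cancel r d).symm, rfl⟩
    · rintro r c r1 c1 ⟨d, hd, rfl, rfl⟩
      exact ⟨d, ((D16_ok r c).2.2 d hd).2.2, rfl, (L16_cancel c d).symm⟩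
  · rw [cov_S16, if_pos ⟨rfl, rfl⟩]
  · intro r c h
    rw [cov_S16, if_neg]
    rintro ⟨rfl, rfl⟩
    exact h rfl

end Pool.Agent.H22.HSQ
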