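import Pool.Agent.H22.HSQ.Iso
import Pool.Agent.H22.HSQ.Glu
import Pool.Agent.H22.HSQ.Ofa
import Pool.Agent.H22.HSQ.Dih
import Pool.Agent.H22.HSQ.Ide
import Pool.Agent.H22.HSQ.Tab
import Pool.Agent.H22.HSQ.Fra

/-!
# Odd orders with a fourfold covering by intercalates
-/

namespace Pool.Agent.H22.HSQ

open Pool.Agent.H51.Homog

/-- gluing, full version -/
lemma base_glue {v w h : ℕ} (hv : 0 < v) {V : Fin v → Fin v → Fin v}
    {LO : Fin v × Fin w → Fin v × Fin w → Fin v × Fin w}
    {SO : Fin v × Fin w → Fin v × Fin w → Fin v × Fin w → Fin v × Fin w → Prop}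
    (D : OffData h V LO SO) (H1 : Base1 h (w + 1)) (H : Base h (w + 1)) :
    Base h (w * v + 1) := by
  classical
  obtain ⟨A, SA, hA, hSA, hA0, hcA, hcA'⟩ := base1_norm H1
  obtain ⟨B, SB, hB, hSB, hB0, hcB⟩ := base_norm H
  set i₀ : Fin v := ⟨0, hv⟩
  obtain ⟨L, S, hL, hS, h1, h2⟩ := glue D i₀ (fun i => if i = i₀ then B else A)
    (fun i => if i = i₀ then SB else SA)
    (fun i => by by_cases hi : i = i₀ <;> simp [hi, hA, hB])
    (fun i => by by_cases hi : i = i₀ <;> simp [hi, hSA, hSB])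
    (fun i => by by_cases hi : i = i₀ <;> simp [hi, hA0, hB0])
    (fun i r c hrc => by
      by_cases hi : i = i₀
      · simp [hi, hcB]
      · simpa [hi] using hcA' r c hrc)
    (fun i hi => by simp [hi, hcA])
  refine ⟨Option (Fin v × Fin w), inferInstance, L, S, ?_, hL, hS, fun r c => ?_⟩
  · rw [Fintype.card_option, Fintype.card_prod, Fintype.card_fin, Fintype.card_fin, mul_comm]
  · by_cases hrc : (r, c) = (none, none)
    · simp only [Prod.mk.injEq] at hrc
      obtain ⟨rfl, rfl⟩ := hrc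
      rw [h1]
      simp [hcB]
    · exact h2 r c hrc

/-- gluing, version with one uncovered cell -/
lemma base1_glue {v w h : ℕ} (hv : 0 < v) {V : Fin v → Fin v → Fin v}
    {LO : Fin v × Fin w → Fin v × Fin w → Fin v × Fin w}
    {SO : Fin v × Fin w → Fin v × Fin w → Fin v × Fin w → Fin v × Fin w → Prop}
    (D : OffData h V LO SO) (H1 : Base1 h (w + 1)) :
    Base1 h (w * v + 1) := by
  classical
  obtain ⟨A, SA, hA, hSA, hA0, hcA, hcA'⟩ := base1_norm H1
  obtain ⟨L, S, hL, hS, h1, h2⟩ := glue D ⟨0, hv⟩ (fun _ => A) (fun _ => SA)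
    (fun _ => hA) (fun _ => hSA) (fun _ => hA0) (fun _ r c hrc => hcA' r c hrc) (fun _ _ => hcA)
  refine ⟨Option (Fin v × Fin w), inferInstance, L, S, none, none, ?_, hL, hS, ?_, h2⟩
  · rw [Fintype.card_option, Fintype.card_prod, Fintype.card_fin, Fintype.card_fin, mul_comm]
  · rw [h1, hcA]

lemma base_121 : Base 4 121 ∧ Base1 4 121 := by
  obtain ⟨V, S, hV, hS, hid, hoff, hdia⟩ := frame_eight
  obtain ⟨LO, SO, D⟩ := offData_of_frame (w := 15) hV hid hS hoff hdia (by norm_num)
  have h16 : Base 4 (15 + 1) := base_dihedral (m := 8) (by norm_num) (by norm_num)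
  exact ⟨base_glue (by norm_num) D base1_sixteen h16, base1_glue (by norm_num) D base1_sixteen⟩

theorem base_four {v : ℕ} (hv : 3 ≤ v) : Base 4 (120 * v + 1) := by
  obtain ⟨V, hV, hid⟩ := exists_idempotent hv
  have h120 : Base 4 120 := base_dihedral (m := 60) (by norm_num) (by norm_num)
  obtain ⟨LO, SO, D⟩ := offData_of_base hV hid h120
  exact base_glue (by omega) D base_121.2 base_121.1

end Pool.Agent.H22.HSQ
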