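import Pool.Agent.H22.HSQ.Defs

/-!
Row PRO of the board hsq_modules: products of latin squares with sets of intercalates.
-/

namespace Pool.Agent.H22.HSQ

open Pool.Agent.H51.Homog

theorem base_mul {h₁ m₁ h₂ m₂ : ℕ} (H₁ : Base h₁ m₁) (H₂ : Base h₂ m₂) :
    Base (h₁ + h₂) (m₁ * m₂) := by
  obtain ⟨α, _, L₁, S₁, hc₁, hL₁, hS₁, hv₁⟩ := H₁
  obtain ⟨β, _, L₂, S₂, hc₂, hL₂, hS₂, hv₂⟩ := H₂
  refine ⟨α × β, inferInstance, fun r c => (L₁ r.1 c.1, L₂ r.2 c.2),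
    fun r c r' c' => (S₁ r.1 c.1 r'.1 c'.1 ∧ r'.2 = r.2 ∧ c'.2 = c.2) ∨
      (r'.1 = r.1 ∧ c'.1 = c.1 ∧ S₂ r.2 c.2 r'.2 c'.2), ?_, ?_, ?_, ?_⟩
  · rw [Fintype.card_prod, hc₁, hc₂]
  · exact ⟨fun r => (hL₁.1 r.1).prodMap (hL₂.1 r.2), fun c => (hL₁.2 c.1).prodMap (hL₂.2 c.2)⟩
  · refine ⟨?_, ?_, ?_, ?_, ?_, ?_⟩
    · rintro ⟨r, s⟩ ⟨c, d⟩ ⟨r', s'⟩ ⟨c', d'⟩ (⟨h, h1, h2⟩ | ⟨h1, h2, h⟩) he
      · exact hS₁.ne_row h (congrArg Prod.fst he)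
      · exact hS₂.ne_row h (congrArg Prod.snd he)
    · rintro ⟨r, s⟩ ⟨c, d⟩ ⟨r', s'⟩ ⟨c', d'⟩ (⟨h, h1, h2⟩ | ⟨h1, h2, h⟩) he
      · exact hS₁.ne_col h (congrArg Prod.fst he)
      · exact hS₂.ne_col h (congrArg Prod.snd he)
    · rintro ⟨r, s⟩ ⟨c, d⟩ ⟨r', s'⟩ ⟨c', d'⟩ (⟨h, h1, h2⟩ | ⟨h1, h2, h⟩)
      · have h3 := hS₁.diag h
        simp only at h1 h2 h3 ⊢
        rw [h1, h2, h3]
      · have h3 := hS₂.diag h
        simp only at h1 h2 h3 ⊢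
        rw [h1, h2, h3]
    · rintro ⟨r, s⟩ ⟨c, d⟩ ⟨r', s'⟩ ⟨c', d'⟩ (⟨h, h1, h2⟩ | ⟨h1, h2, h⟩)
      · have h3 := hS₁.anti h
        simp only at h1 h2 h3 ⊢
        rw [h1, h2, h3]
      · have h3 := hS₂.anti h
        simp only at h1 h2 h3 ⊢
        rw [h1, h2, h3]
    · rintro ⟨r, s⟩ ⟨c, d⟩ ⟨r', s'⟩ ⟨c', d'⟩ (⟨h, h1, h2⟩ | ⟨h1, h2, h⟩)
      · exact Or.inl ⟨hS₁.swap_row h, h1.symm, h2⟩
      · exact Or.inr ⟨h1.symm, h2, hS₂.swap_row h⟩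
    · rintro ⟨r, s⟩ ⟨c, d⟩ ⟨r', s'⟩ ⟨c', d'⟩ (⟨h, h1, h2⟩ | ⟨h1, h2, h⟩)
      · exact Or.inl ⟨hS₁.swap_col h, h1, h2.symm⟩
      · exact Or.inr ⟨h1, h2.symm, hS₂.swap_col h⟩
  · rintro ⟨r, s⟩ ⟨c, d⟩
    unfold cov
    have h1 : {p : (α × β) × (α × β) | (S₁ r c p.1.1 p.2.1 ∧ p.1.2 = s ∧ p.2.2 = d) ∨
        (p.1.1 = r ∧ p.2.1 = c ∧ S₂ s d p.1.2 p.2.2)} =
        ((fun p : α × α => (((p.1, s), (p.2, d)) : (α × β) × (α × β))) ''
          {p : α × α | S₁ r c p.1 p.2}) ∪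
        ((fun p : β × β => (((r, p.1), (c, p.2)) : (α × β) × (α × β))) ''
          {p : β × β | S₂ s d p.1 p.2}) := by
      ext ⟨⟨a, b⟩, ⟨a', b'⟩⟩
      constructor
      · rintro (⟨h, h1, h2⟩ | ⟨h1, h2, h⟩)
        · left
          refine ⟨(a, a'), h, ?_⟩
          simp only at h1 h2 ⊢
          rw [h1, h2]
        · right
          refine ⟨(b, b'), h, ?_⟩
          simp only at h1 h2 ⊢
          rw [h1, h2]
      · rintro (⟨⟨p1, p2⟩, h, he⟩ | ⟨⟨p1, p2⟩, h, he⟩)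
        · left
          simp only [Prod.mk.injEq] at he
          obtain ⟨⟨rfl, rfl⟩, rfl, rfl⟩ := he
          exact ⟨h, rfl, rfl⟩
        · right
          simp only [Prod.mk.injEq] at he
          obtain ⟨⟨rfl, rfl⟩, rfl, rfl⟩ := he
          exact ⟨rfl, rfl, h⟩
    have h2 : Disjoint ((fun p : α × α => (((p.1, s), (p.2, d)) : (α × β) × (α × β))) ''
          {p : α × α | S₁ r c p.1 p.2})
        ((fun p : β × β => (((r, p.1), (c, p.2)) : (α × β) × (α × β))) ''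
          {p : β × β | S₂ s d p.1 p.2}) := by
      rw [Set.disjoint_left]
      rintro _ ⟨⟨p1, p2⟩, h, rfl⟩ ⟨⟨q1, q2⟩, h', he⟩
      simp only [Prod.mk.injEq] at he
      exact hS₁.ne_row h he.1.1.symm
    have h3 : ((fun p : α × α => (((p.1, s), (p.2, d)) : (α × β) × (α × β))) ''
          {p : α × α | S₁ r c p.1 p.2}).ncard = h₁ := by
      rw [Set.ncard_image_of_injective]
      · exact hv₁ r c
      · rintro ⟨a, b⟩ ⟨a', b'⟩ he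
        simp only [Prod.mk.injEq] at he
        rw [he.1.1, he.2.1]
    have h4 : ((fun p : β × β => (((r, p.1), (c, p.2)) : (α × β) × (α × β))) ''
          {p : β × β | S₂ s d p.1 p.2}).ncard = h₂ := by
      rw [Set.ncard_image_of_injective]
      · exact hv₂ s d
      · rintro ⟨a, b⟩ ⟨a', b'⟩ he
        simp only [Prod.mk.injEq] at he
        rw [he.1.2, he.2.2]
    refine (congrArg Set.ncard h1).trans ?_
    rw [Set.ncard_union_eq h2 (Set.toFinite _) (Set.toFinite _), h3, h4]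

theorem base_zero {m : ℕ} (hm : 0 < m) : Base 0 m := by
  have : NeZero m := ⟨by omega⟩
  refine ⟨Fin m, inferInstance, fun r c => r + c, fun _ _ _ _ => False, Fintype.card_fin m,
    ?_, ?_, ?_⟩
  · exact ⟨fun r => (Equiv.addLeft r).bijective, fun c => (Equiv.addRight c).bijective⟩
  · exact ⟨fun h => h.elim, fun h => h.elim, fun h => h.elim, fun h => h.elim,
      fun h => h.elim, fun h => h.elim⟩
  · intro r c
    unfold cov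
    simp

end Pool.Agent.H22.HSQ
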