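import Pool.Agent.H22.HSQ.Defs

/-!
# The necessary divisibility
-/

namespace Pool.Agent.H22.HSQ

open Pool.Agent.H51.Homog Finset

/-- a set of pairs symmetric under an involution without fixed points on the first coordinate has
even cardinality: here in the form used twice below -/
lemma card_filter_lt {γ : Type} [DecidableEq γ] {n : ℕ} (Q : Finset γ) (u v : γ → Fin n)
    (hne : ∀ q ∈ Q, u q ≠ v q) (φ : γ → γ) (hφ : ∀ q ∈ Q, φ q ∈ Q) (hinv : ∀ q, φ (φ q) = q)
    (huv : ∀ q, u (φ q) = v q) (hvu : ∀ q, v (φ q) = u q) :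
    Q.card = 2 * (Q.filter fun q => u q < v q).card := by
  classical
  have h1 : (Q.filter fun q => u q < v q).card + (Q.filter fun q => ¬ u q < v q).card = Q.card :=
    Finset.card_filter_add_card_filter_not _
  have h2 : (Q.filter fun q => ¬ u q < v q).card = (Q.filter fun q => u q < v q).card := by
    refine Finset.card_bij' (fun q _ => φ q) (fun q _ => φ q) ?_ ?_ ?_ ?_
    · intro q hq
      simp only [mem_filter] at hq ⊢
      refine ⟨hφ q hq.1, ?_⟩
      rw [huv, hvu]
      exact lt_of_le_of_ne (not_lt.1 hq.2) (hne q hq.1).symm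
    · intro q hq
      simp only [mem_filter] at hq ⊢
      refine ⟨hφ q hq.1, ?_⟩
      rw [huv, hvu]
      exact not_lt.2 hq.2.le
    · intro q _
      exact hinv q
    · intro q _
      exact hinv q
  omega

theorem four_dvd_of_isOrder {h n : ℕ} (H : IsOrder h n) : 4 ∣ n ^ 2 * h := by
  classical
  obtain ⟨L, hL, hh⟩ := H
  let Q : Finset ((Fin n × Fin n) × (Fin n × Fin n)) :=
    univ.filter fun q => q.2.1 ≠ q.1.1 ∧ q.2.2 ≠ q.1.2 ∧ L q.2.1 q.2.2 = L q.1.1 q.1.2 ∧
      L q.2.1 q.1.2 = L q.1.1 q.2.2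
  have hmem : ∀ q, q ∈ Q ↔ q.2.1 ≠ q.1.1 ∧ q.2.2 ≠ q.1.2 ∧ L q.2.1 q.2.2 = L q.1.1 q.1.2 ∧
      L q.2.1 q.1.2 = L q.1.1 q.2.2 := fun q => by simp [Q]
  have hcard : Q.card = n ^ 2 * h := by
    have h1 : Q.card = ∑ a : Fin n × Fin n, ({p : Fin n × Fin n | p.1 ≠ a.1 ∧ p.2 ≠ a.2 ∧
        L p.1 p.2 = L a.1 a.2 ∧ L p.1 a.2 = L a.1 p.2} : Finset _).card := by
      rw [Finset.card_eq_sum_card_fiberwise (f := Prod.fst) (t := univ) (fun _ _ => mem_univ _)]
      refine Finset.sum_congr rfl fun a _ => ?_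
      refine Finset.card_bij' (fun q _ => q.2) (fun p _ => (a, p)) ?_ ?_ ?_ ?_
      · rintro ⟨b, p⟩ hq
        simp only [mem_filter, hmem, mem_univ, true_and] at hq ⊢
        obtain ⟨hq, rfl⟩ := hq
        exact hq
      · rintro p hp
        simp only [mem_filter, hmem, mem_univ, true_and] at hp ⊢
        exact ⟨hp, trivial⟩
      · rintro ⟨b, p⟩ hq
        simp only [mem_filter] at hq
        simp [hq.2]
      · intro p _
        rfl
    rw [h1]
    have h2 : ∀ a : Fin n × Fin n, ({p : Fin n × Fin n | p.1 ≠ a.1 ∧ p.2 ≠ a.2 ∧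
        L p.1 p.2 = L a.1 a.2 ∧ L p.1 a.2 = L a.1 p.2} : Finset _).card = h := by
      intro a
      have := hh a.1 a.2
      rw [intercalatesAt, Set.ncard_eq_toFinset_card'] at this
      rw [← this]
      congr 1
      ext p
      simp
    rw [Finset.sum_congr rfl fun a _ => h2 a]
    simp [pow_two]
  rw [← hcard]
  have h1 := card_filter_lt Q (fun q => q.1.1) (fun q => q.2.1)
    (fun q hq => ((hmem q).1 hq).1.symm) (fun q => ((q.2.1, q.1.2), (q.1.1, q.2.2)))
    (fun q hq => by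
      have := (hmem q).1 hq
      rw [hmem]
      exact ⟨this.1.symm, this.2.1, this.2.2.2.symm, this.2.2.1.symm⟩)
    (fun q => rfl) (fun q => rfl) (fun q => rfl)
  have h2 := card_filter_lt (Q.filter fun q => q.1.1 < q.2.1) (fun q => q.1.2) (fun q => q.2.2)
    (fun q hq => ((hmem q).1 (mem_filter.1 hq).1).2.1.symm)
    (fun q => ((q.1.1, q.2.2), (q.2.1, q.1.2)))
    (fun q hq => by
      have h3 := mem_filter.1 hq
      have := (hmem q).1 h3.1
      rw [mem_filter, hmem]
      exact ⟨⟨this.1, this.2.1.symm, this.2.2.2, this.2.2.1⟩, h3.2⟩)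
    (fun q => rfl) (fun q => rfl) (fun q => rfl)
  rw [h1, h2, ← mul_assoc]
  exact Dvd.intro _ rfl

end Pool.Agent.H22.HSQ
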