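import Mathlib
import Pool.Agent.H51.Homog.Defs

/-!
# Homogeneous latin squares of almost all orders: definitions

`IsLatin`, `intercalatesAt`, `IsHomogeneous` are in `Pool.Agent.H51.Homog.Defs`.
-/

namespace Pool.Agent.H22.HSQ

open Pool.Agent.H51.Homog

/-- `S` is a set of intercalates of `L`: `S r c r' c'` says that the intercalate with the opposite
corners `(r, c)` and `(r', c')` is chosen. -/
structure IsSys {α : Type} (L : α → α → α) (S : α → α → α → α → Prop) : Prop where
  ne_row : ∀ {r c r' c' : α}, S r c r' c' → r' ≠ r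
  ne_col : ∀ {r c r' c' : α}, S r c r' c' → c' ≠ c
  diag : ∀ {r c r' c' : α}, S r c r' c' → L r' c' = L r c
  anti : ∀ {r c r' c' : α}, S r c r' c' → L r' c = L r c'
  swap_row : ∀ {r c r' c' : α}, S r c r' c' → S r' c r c'
  swap_col : ∀ {r c r' c' : α}, S r c r' c' → S r c' r' c

/-- the number of chosen intercalates containing the cell `(r, c)` -/
noncomputable def cov {α : Type} (S : α → α → α → α → Prop) (r c : α) : ℕ :=
  {p : α × α | S r c p.1 p.2}.ncard

/-- There is a latin square of order `m` with a set of intercalates that covers every cell exactly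
`h` times. -/
def Base (h m : ℕ) : Prop :=
  ∃ (α : Type) (_ : Fintype α) (L : α → α → α) (S : α → α → α → α → Prop),
    Fintype.card α = m ∧ IsLatin L ∧ IsSys L S ∧ ∀ r c, cov S r c = h

/-- The same, except that one cell is not covered at all. -/
def Base1 (h m : ℕ) : Prop :=
  ∃ (α : Type) (_ : Fintype α) (L : α → α → α) (S : α → α → α → α → Prop) (a b : α),
    Fintype.card α = m ∧ IsLatin L ∧ IsSys L S ∧ cov S a b = 0 ∧
      ∀ r c, (r, c) ≠ (a, b) → cov S r c = h

/-- `n` is the order of an `h`-homogeneous latin square. -/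
def IsOrder (h n : ℕ) : Prop := ∃ L : Fin n → Fin n → Fin n, IsLatin L ∧ IsHomogeneous h L

/-- The pieces from which a latin square on `Option (ι × W)` is glued: `V` is an idempotent latin
square on `ι`, `LO` is a latin square on `ι × W` above `V` whose cells over the off-diagonal of `V`
are covered `h` times by `SO`, and the cells over the diagonal are not covered. -/
structure OffData {ι W : Type} (h : ℕ) (V : ι → ι → ι) (LO : ι × W → ι × W → ι × W)
    (SO : ι × W → ι × W → ι × W → ι × W → Prop) : Prop where
  latinV : IsLatin V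
  idem : ∀ i, V i i = i
  latin : IsLatin LO
  proj : ∀ i x j y, (LO (i, x) (j, y)).1 = V i j
  sys : IsSys LO SO
  off : ∀ i x j y, i ≠ j → cov SO (i, x) (j, y) = h
  dia : ∀ i x y, cov SO (i, x) (i, y) = 0

end Pool.Agent.H22.HSQ
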