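import Pool.Agent.H22.HSQ.Pro

/-!
# Products of primes as orders of bases (row PIG)
-/

namespace Pool.Agent.H22.HSQ

open Finset

/-- a nonempty subfamily with product one -/
theorem exists_prod_eq_one {ι G : Type} [DecidableEq ι] [CommGroup G] [Fintype G] (T : Finset ι)
    (f : ι → G) (h : Fintype.card G ≤ T.card) :
    ∃ U ⊆ T, U.Nonempty ∧ ∏ x ∈ U, f x = 1 := by
  classical
  obtain ⟨idx, hidx⟩ : ∃ idx : ι → ℕ, ∀ i < T.card, ∃ x ∈ T, idx x = i := by
    refine ⟨fun x => if hx : x ∈ T then (T.equivFin ⟨x, hx⟩ : ℕ) else 0, fun i hi => ?_⟩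
    refine ⟨(T.equivFin.symm ⟨i, hi⟩ : T), (T.equivFin.symm ⟨i, hi⟩).2, ?_⟩
    simp
  obtain ⟨P, hP⟩ : ∃ P : ℕ → G, P = fun i => ∏ x ∈ T.filter (fun x => idx x < i), f x := ⟨_, rfl⟩
  have key : ∀ i j, i < j → j ≤ T.card → P i = P j →
      ∃ U ⊆ T, U.Nonempty ∧ ∏ x ∈ U, f x = 1 := by
    intro i j hij hj hPij
    refine ⟨T.filter (fun x => i ≤ idx x ∧ idx x < j), filter_subset _ _, ?_, ?_⟩
    · obtain ⟨x, hx, hxi⟩ := hidx i (by omega)
      exact ⟨x, mem_filter.2 ⟨hx, by omega, by omega⟩⟩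
    · have h1 : T.filter (fun x => idx x < j) =
          T.filter (fun x => idx x < i) ∪ T.filter (fun x => i ≤ idx x ∧ idx x < j) := by
        ext x
        simp only [mem_filter, mem_union]
        constructor
        · rintro ⟨a, b⟩
          by_cases hx : idx x < i
          · exact Or.inl ⟨a, hx⟩
          · exact Or.inr ⟨a, by omega, b⟩
        · rintro (⟨a, b⟩ | ⟨a, b, c⟩)
          · exact ⟨a, by omega⟩
          · exact ⟨a, c⟩
      have h2 : Disjoint (T.filter (fun x => idx x < i))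
          (T.filter (fun x => i ≤ idx x ∧ idx x < j)) := by
        rw [disjoint_left]
        intro x hx hx'
        rw [mem_filter] at hx hx'
        omega
      have h3 : P j = P i * ∏ x ∈ T.filter (fun x => i ≤ idx x ∧ idx x < j), f x := by
        rw [hP]
        change ∏ x ∈ T.filter (fun x => idx x < j), f x = _
        rw [h1, prod_union h2]
      rw [← hPij] at h3
      exact (left_eq_mul.1 h3)
  obtain ⟨a, b, hab, hPab⟩ := Fintype.exists_ne_map_eq_of_card_lt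
    (fun i : Fin (Fintype.card G + 1) => P i) (by rw [Fintype.card_fin]; omega)
  have ha := a.2
  have hb := b.2
  rcases lt_trichotomy (a : ℕ) (b : ℕ) with h1 | h1 | h1
  · exact key a b h1 (by omega) hPab
  · exact absurd (Fin.ext h1) hab
  · exact key b a h1 (by omega) hPab.symm

theorem exists_prod_mod (T : Finset ℕ) (hT : ∀ p ∈ T, p.Prime ∧ 7 ≤ p) (hc : 32 ≤ T.card) :
    ∃ U ⊆ T, (∏ p ∈ U, p) % 120 = 1 ∧ 121 ≤ ∏ p ∈ U, p := by
  classical
  have hcop : ∀ p ∈ T, Nat.Coprime p 120 := by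
    intro p hp
    obtain ⟨h1, h2⟩ := hT p hp
    rw [h1.coprime_iff_not_dvd]
    intro h3
    have h4 : (120 : ℕ) = 2 ^ 3 * 3 * 5 := by norm_num
    rw [h4, h1.dvd_mul, h1.dvd_mul] at h3
    rcases h3 with (h3 | h3) | h3
    · have := Nat.le_of_dvd (by norm_num) (h1.dvd_of_dvd_pow h3)
      omega
    · have := Nat.le_of_dvd (by norm_num) h3
      omega
    · have := Nat.le_of_dvd (by norm_num) h3
      omega
  have hcard : Fintype.card (ZMod 120)ˣ = 32 := by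
    rw [ZMod.card_units_eq_totient]
    decide +kernel
  obtain ⟨f, hf⟩ : ∃ f : ℕ → (ZMod 120)ˣ, ∀ p ∈ T, ((f p : (ZMod 120)ˣ) : ZMod 120) = p := by
    refine ⟨fun p => if h : Nat.Coprime p 120 then ZMod.unitOfCoprime p h else 1, ?_⟩
    intro p hp
    simp only [dif_pos (hcop p hp)]
    exact ZMod.coe_unitOfCoprime p (hcop p hp)
  obtain ⟨U, hU, hne, hprod⟩ := exists_prod_eq_one T f (by rw [hcard]; exact hc)
  have h1 : ((∏ p ∈ U, p : ℕ) : ZMod 120) = ((1 : ℕ) : ZMod 120) := by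
    have h2 := congrArg (fun u : (ZMod 120)ˣ => (u : ZMod 120)) hprod
    push_cast at h2
    push_cast
    rw [← h2]
    exact prod_congr rfl fun p hp => (hf p (hU hp)).symm
  rw [ZMod.natCast_eq_natCast_iff] at h1
  have h2 : (∏ p ∈ U, p) % 120 = 1 := h1
  refine ⟨U, hU, h2, ?_⟩
  obtain ⟨p, hp⟩ := hne
  have h3 : p ∣ ∏ p ∈ U, p := dvd_prod_of_mem _ hp
  have h4 : 0 < ∏ p ∈ U, p := prod_pos fun p hp => (hT p (hU hp)).1.pos
  have h5 := Nat.le_of_dvd h4 h3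
  have h6 := (hT p (hU hp)).2
  omega

theorem base_of_primes_aux (B4 : ∀ v, 3 ≤ v → Base 4 (120 * v + 1)) (j : ℕ) :
    ∀ (T : Finset ℕ), (∀ p ∈ T, p.Prime ∧ 7 ≤ p) → 64 * j ≤ T.card →
    ∃ U ⊆ T, Base (4 * j) (∏ p ∈ U, p) := by
  classical
  induction j with
  | zero =>
    intro T hT hc
    refine ⟨∅, empty_subset _, ?_⟩
    rw [prod_empty]
    exact base_zero one_pos
  | succ j ih =>
    intro T hT hc
    obtain ⟨T₁, hT₁, hc₁⟩ := exists_subset_card_eq (s := T) (n := 32) (by omega)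
    have hc₂ : (T \ T₁).card = T.card - 32 := by
      rw [card_sdiff_of_subset hT₁, hc₁]
    obtain ⟨T₂, hT₂, hc₂'⟩ := exists_subset_card_eq (s := T \ T₁) (n := 32) (by omega)
    have hc₃ : ((T \ T₁) \ T₂).card = T.card - 64 := by
      rw [card_sdiff_of_subset hT₂, hc₂, hc₂']
      omega
    have hs₂ : T₂ ⊆ T := hT₂.trans sdiff_subset
    have hs₃ : (T \ T₁) \ T₂ ⊆ T := sdiff_subset.trans sdiff_subset
    obtain ⟨U₁, hU₁, m₁, g₁⟩ := exists_prod_mod T₁ (fun p hp => hT p (hT₁ hp)) hc₁.ge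
    obtain ⟨U₂, hU₂, m₂, g₂⟩ := exists_prod_mod T₂ (fun p hp => hT p (hs₂ hp)) hc₂'.ge
    obtain ⟨U₃, hU₃, hB₃⟩ := ih _ (fun p hp => hT p (hs₃ hp)) (by omega)
    have d12 : Disjoint U₁ U₂ := by
      rw [disjoint_left]
      intro x hx hx'
      exact (mem_sdiff.1 (hT₂ (hU₂ hx'))).2 (hU₁ hx)
    have d3 : Disjoint U₃ (U₁ ∪ U₂) := by
      rw [disjoint_left]
      intro x hx hx'
      have h1 := mem_sdiff.1 (hU₃ hx)
      rcases mem_union.1 hx' with h2 | h2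
      · exact (mem_sdiff.1 h1.1).2 (hU₁ h2)
      · exact h1.2 (hU₂ h2)
    refine ⟨U₃ ∪ (U₁ ∪ U₂), ?_, ?_⟩
    · apply union_subset (hU₃.trans hs₃)
      exact union_subset (hU₁.trans hT₁) (hU₂.trans hs₂)
    · rw [prod_union d3, prod_union d12]
      have h1 : ((∏ p ∈ U₁, p) * ∏ p ∈ U₂, p) % 120 = 1 := by
        rw [Nat.mul_mod, m₁, m₂]
      have h2 : 121 * 121 ≤ (∏ p ∈ U₁, p) * ∏ p ∈ U₂, p := Nat.mul_le_mul g₁ g₂
      obtain ⟨v, hv⟩ : ∃ v, (∏ p ∈ U₁, p) * ∏ p ∈ U₂, p = 120 * v + 1 := by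
        refine ⟨((∏ p ∈ U₁, p) * ∏ p ∈ U₂, p) / 120, ?_⟩
        omega
      have h3 : Base 4 ((∏ p ∈ U₁, p) * ∏ p ∈ U₂, p) := by
        rw [hv]
        apply B4
        omega
      have h4 := base_mul hB₃ h3
      have h5 : 4 * j + 4 = 4 * (j + 1) := by ring
      rw [h5] at h4
      exact h4

end Pool.Agent.H22.HSQ
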