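import Mathlib

/-!
# Few integers have few prime divisors in a suitable finite set (row SIE)
-/

namespace Pool.Agent.H22.HSQ

open Finset

theorem exists_primes_sum (A : ℕ) (C : ℝ) :
    ∃ G : Finset ℕ, (∀ p ∈ G, p.Prime ∧ A < p) ∧ C ≤ ∑ p ∈ G, (1 : ℝ) / p := by
  by_contra hcon
  push Not at hcon
  apply not_summable_one_div_on_primes
  obtain ⟨f, hf⟩ : ∃ f : ℕ → ℝ, f = Set.indicator {p | p.Prime} (fun n : ℕ ↦ (1 : ℝ) / n) :=
    ⟨_, rfl⟩
  rw [← hf]
  have f0 : ∀ n, 0 ≤ f n := by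
    intro n
    rw [hf]
    apply Set.indicator_nonneg
    intro x _
    positivity
  apply summable_of_sum_le (c := ∑ n ∈ range (A + 1), f n + C) f0
  intro u
  rw [← sum_filter_add_sum_filter_not u (fun n => n ≤ A)]
  apply add_le_add
  · apply sum_le_sum_of_subset_of_nonneg
    · intro x hx
      rw [mem_filter] at hx
      exact mem_range.2 (by omega)
    · exact fun i _ _ => f0 i
  · have h1 : ∑ x ∈ u.filter (fun n => ¬ n ≤ A), f x =
        ∑ x ∈ (u.filter (fun n => ¬ n ≤ A)).filter (fun n => n.Prime), (1 : ℝ) / x := by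
      rw [sum_filter (s := u.filter (fun n => ¬ n ≤ A)) (p := fun n => Nat.Prime n), hf]
      apply sum_congr rfl
      intro x _
      rw [Set.indicator_apply]
      rfl
    rw [h1]
    apply le_of_lt
    apply hcon
    intro p hp
    rw [mem_filter, mem_filter] at hp
    exact ⟨hp.2, not_le.1 hp.1.2⟩

theorem exists_primes_prod (A : ℕ) {δ : ℝ} (hδ : 0 < δ) :
    ∃ G : Finset ℕ, (∀ p ∈ G, p.Prime ∧ A < p) ∧ ∏ p ∈ G, (1 - ((p : ℕ) : ℝ)⁻¹) ≤ δ := by
  obtain ⟨G, hG, hs⟩ := exists_primes_sum A (-Real.log δ)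
  refine ⟨G, hG, ?_⟩
  calc ∏ p ∈ G, (1 - ((p : ℕ) : ℝ)⁻¹) ≤ ∏ p ∈ G, Real.exp (-((p : ℕ) : ℝ)⁻¹) := by
        apply prod_le_prod
        · intro p hp
          have h1 : (1 : ℝ) ≤ p := by exact_mod_cast (hG p hp).1.one_le
          have h2 : ((p : ℕ) : ℝ)⁻¹ ≤ 1 := inv_le_one_of_one_le₀ h1
          linarith
        · intro p _
          exact Real.one_sub_le_exp_neg _
    _ = Real.exp (-∑ p ∈ G, (1 : ℝ) / p) := by
        rw [← Real.exp_sum, sum_neg_distrib]
        simp only [one_div]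
    _ ≤ Real.exp (Real.log δ) := Real.exp_le_exp.2 (by linarith)
    _ = δ := Real.exp_log hδ

/-- one set of primes -/
theorem no_primes (A : ℕ) {δ : ℝ} (hδ : 0 < δ) :
    ∃ (G : Finset ℕ) (M : ℝ), (∀ p ∈ G, p.Prime ∧ A < p) ∧ 0 ≤ M ∧ ∀ X : ℕ,
      (((Icc 1 X).filter fun n => ∀ p ∈ G, ¬ p ∣ n).card : ℝ) ≤ δ * X + M := by
  obtain ⟨G, hG, hp⟩ := exists_primes_prod A hδ
  obtain ⟨m, hm⟩ : ∃ m, m = ∏ p ∈ G, p := ⟨_, rfl⟩
  have hm0 : m ≠ 0 := by
    rw [hm]
    exact prod_ne_zero_iff.2 fun p hp => (hG p hp).1.ne_zero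
  have htot : ((Nat.totient m : ℕ) : ℝ) ≤ m * δ := by
    have h1 := Nat.totient_eq_mul_prod_factors m
    have h2 : m.primeFactors = G := by
      rw [hm]
      exact Nat.primeFactors_prod fun p hp => (hG p hp).1
    rw [h2] at h1
    have h3 : ((Nat.totient m : ℕ) : ℝ) = m * ∏ p ∈ G, (1 - ((p : ℕ) : ℝ)⁻¹) := by
      have h4 := congrArg (fun x : ℚ => (x : ℝ)) h1
      push_cast at h4
      exact h4
    rw [h3]
    exact mul_le_mul_of_nonneg_left hp (by positivity)
  refine ⟨G, m, hG, by positivity, fun X => ?_⟩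
  have h1 : ((Icc 1 X).filter fun n => ∀ p ∈ G, ¬ p ∣ n) ⊆
      (Ico 1 (1 + X)).filter fun n => m.Coprime n := by
    intro n hn
    rw [mem_filter, mem_Icc] at hn
    rw [mem_filter, mem_Ico]
    refine ⟨by omega, ?_⟩
    rw [hm, Nat.coprime_prod_left_iff]
    intro p hp
    exact ((hG p hp).1.coprime_iff_not_dvd).2 (hn.2 p hp)
  have h2 := (card_le_card h1).trans (Nat.Ico_filter_coprime_le 1 X hm0)
  have h3 : ((Nat.totient m : ℕ) : ℝ) ≤ m := by exact_mod_cast Nat.totient_le m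
  have h4 : ((X / m : ℕ) : ℝ) ≤ X / m := Nat.cast_div_le
  have hm' : (0 : ℝ) < m := by
    have : 0 < m := Nat.pos_of_ne_zero hm0
    exact_mod_cast this
  calc (((Icc 1 X).filter fun n => ∀ p ∈ G, ¬ p ∣ n).card : ℝ)
      ≤ ((Nat.totient m * (X / m + 1) : ℕ) : ℝ) := by exact_mod_cast h2
    _ = (Nat.totient m : ℝ) * ((X / m : ℕ) : ℝ) + (Nat.totient m : ℝ) := by
        push_cast
        ring
    _ ≤ (m * δ) * (X / m) + m := by
        apply add_le_add _ h3
        apply mul_le_mul htot h4 (by positivity) (by positivity)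
    _ = δ * X + m := by
        field_simp

theorem few_primes_aux (t : ℕ) : ∀ (A : ℕ) (δ : ℝ), 0 < δ →
    ∃ (T : Finset ℕ) (M : ℝ), (∀ p ∈ T, p.Prime ∧ A < p) ∧ 0 ≤ M ∧ ∀ X : ℕ,
      (((Icc 1 X).filter fun n => (T.filter fun p => p ∣ n).card < t).card : ℝ) ≤ δ * X + M := by
  induction t with
  | zero =>
    intro A δ hδ
    refine ⟨∅, 0, fun p hp => absurd hp (notMem_empty p), le_rfl, fun X => ?_⟩
    simp only [Nat.not_lt_zero, filter_false, card_empty]
    push_cast
    positivity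
  | succ t ih =>
    intro A δ hδ
    obtain ⟨G, M₁, hG, hM₁, h1⟩ := no_primes A (half_pos hδ)
    obtain ⟨T, M₂, hT, hM₂, h2⟩ := ih (A + G.sup id) (δ / 2) (half_pos hδ)
    have hdisj : Disjoint G T := by
      rw [disjoint_left]
      intro p hp hp'
      have h3 : p ≤ G.sup id := le_sup (f := id) hp
      have h4 := (hT p hp').2
      omega
    refine ⟨G ∪ T, M₁ + M₂, ?_, by positivity, fun X => ?_⟩
    · intro p hp
      rcases mem_union.1 hp with hp | hp
      · exact hG p hp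
      · exact ⟨(hT p hp).1, by have := (hT p hp).2; omega⟩
    · have h3 : ((Icc 1 X).filter fun n => ((G ∪ T).filter fun p => p ∣ n).card < t + 1) ⊆
          ((Icc 1 X).filter fun n => ∀ p ∈ G, ¬ p ∣ n) ∪
          ((Icc 1 X).filter fun n => (T.filter fun p => p ∣ n).card < t) := by
        intro n hn
        rw [mem_filter] at hn
        rw [mem_union, mem_filter, mem_filter]
        by_cases hall : ∀ p ∈ G, ¬ p ∣ n
        · exact Or.inl ⟨hn.1, hall⟩
        · right
          refine ⟨hn.1, ?_⟩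
          push Not at hall
          obtain ⟨p, hp, hpn⟩ := hall
          have h4 : (G.filter fun p => p ∣ n).card + (T.filter fun p => p ∣ n).card =
              ((G ∪ T).filter fun p => p ∣ n).card := by
            rw [filter_union, card_union_of_disjoint
              (disjoint_filter_filter hdisj)]
          have h5 : 0 < (G.filter fun p => p ∣ n).card :=
            card_pos.2 ⟨p, mem_filter.2 ⟨hp, hpn⟩⟩
          omega
      have h4 := (card_le_card h3).trans (card_union_le _ _)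
      calc (((Icc 1 X).filter fun n => ((G ∪ T).filter fun p => p ∣ n).card < t + 1).card : ℝ)
          ≤ ((((Icc 1 X).filter fun n => ∀ p ∈ G, ¬ p ∣ n).card +
            ((Icc 1 X).filter fun n => (T.filter fun p => p ∣ n).card < t).card : ℕ) : ℝ) := by
              exact_mod_cast h4
        _ ≤ (δ / 2 * X + M₁) + (δ / 2 * X + M₂) := by
            push_cast
            exact add_le_add (h1 X) (h2 X)
        _ = δ * X + (M₁ + M₂) := by ring

theorem few_primes (t A : ℕ) {ε : ℝ} (hε : 0 < ε) :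
    ∃ T : Finset ℕ, (∀ p ∈ T, p.Prime ∧ A < p) ∧ ∃ X₀ : ℕ, ∀ X : ℕ, X₀ ≤ X →
      (((Finset.Icc 1 X).filter fun n => (T.filter fun p => p ∣ n).card < t).card : ℝ) ≤ ε * X := by
  obtain ⟨T, M, hT, hM, h⟩ := few_primes_aux t A (ε / 2) (half_pos hε)
  refine ⟨T, hT, ⌈2 * M / ε⌉₊, fun X hX => (h X).trans ?_⟩
  have h1 : 2 * M / ε ≤ X := (Nat.le_ceil _).trans (by exact_mod_cast hX)
  rw [div_le_iff₀ hε] at h1
  linarith

end Pool.Agent.H22.HSQ
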