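import Pool.Agent.H22.HSQ.Kin
import Pool.Agent.H22.HSQ.Dih
import Pool.Agent.H22.HSQ.Pig
import Pool.Agent.H22.HSQ.Sie

/-!
# Almost all orders (row FIN), from the bases of order `120 v + 1`
-/

namespace Pool.Agent.H22.HSQ

open Finset

theorem den_multiples (h : ℕ) (M : Finset ℕ) (hM : ∀ m ∈ M, 0 < m ∧ Base h m) {δ : ℝ}
    (hδ : 0 < δ) : ∃ X₀ : ℕ, ∀ X : ℕ, X₀ ≤ X →
      ({n : ℕ | n ∈ Icc 1 X ∧ (∃ m ∈ M, ∃ N, Odd N ∧ n = m * N) ∧ ¬ IsOrder h n}.ncard : ℝ) ≤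
        δ * X := by
  classical
  have h1 : ∀ m : ℕ, ∃ K : ℕ, m ∈ M → ∀ N : ℕ, Odd N → ∀ T : Finset ℕ,
      (∀ q ∈ T, q.Prime ∧ 5 ≤ q ∧ q ∣ N) → K ≤ T.card → IsOrder h (m * N) := by
    intro m
    by_cases hm : m ∈ M
    · obtain ⟨K, hK⟩ := exists_kill (hM m hm).2
      exact ⟨K, fun _ => hK⟩
    · exact ⟨0, fun h => absurd h hm⟩
  choose K hK using h1
  obtain ⟨T, hT, X₀, hX⟩ := few_primes (M.sup K) (M.sup id + 4) hδ
  refine ⟨X₀, fun X hX₀ => le_trans ?_ (hX X hX₀)⟩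
  have hsub : {n : ℕ | n ∈ Icc 1 X ∧ (∃ m ∈ M, ∃ N, Odd N ∧ n = m * N) ∧ ¬ IsOrder h n} ⊆
      (((Icc 1 X).filter fun n => (T.filter fun p => p ∣ n).card < M.sup K : Finset ℕ) :
        Set ℕ) := by
    rintro n ⟨hn, ⟨m, hm, N, hN, rfl⟩, hno⟩
    rw [mem_coe, mem_filter]
    refine ⟨hn, ?_⟩
    by_contra hcon
    rw [not_lt] at hcon
    apply hno
    apply hK m hm N hN (T.filter fun p => p ∣ m * N)
    · intro q hq
      rw [mem_filter] at hq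
      obtain ⟨h2, h3⟩ := hT q hq.1
      refine ⟨h2, by omega, ?_⟩
      rcases (h2.dvd_mul).1 hq.2 with h4 | h4
      · exfalso
        have h5 := Nat.le_of_dvd (hM m hm).1 h4
        have h6 : m ≤ M.sup id := le_sup (f := id) hm
        omega
      · exact h4
    · exact (le_sup hm).trans hcon
  have h2 := Set.ncard_le_ncard hsub (Set.toFinite _)
  rw [Set.ncard_coe_finset] at h2
  exact_mod_cast h2

theorem den_even (h : ℕ) {ε : ℝ} (hε : 0 < ε) : ∃ X₀ : ℕ, ∀ X : ℕ, X₀ ≤ X →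
    ({n : ℕ | n ∈ Icc 1 X ∧ Even n ∧ ¬ IsOrder h n}.ncard : ℝ) ≤ ε * X := by
  classical
  obtain ⟨s₀, hs₀⟩ := exists_pow_lt_of_lt_one (show (0 : ℝ) < ε / 3 by positivity)
    (show (1 / 2 : ℝ) < 1 by norm_num)
  obtain ⟨T, hT, X₁, hX₁⟩ := few_primes 1 (h + 4) (show (0 : ℝ) < ε / 3 by positivity)
  obtain ⟨M, hMdef⟩ : ∃ M : Finset ℕ, M = (((range s₀).filter fun s => 1 ≤ s) ×ˢ T).image
      (fun a => 2 ^ a.1 * a.2) := ⟨_, rfl⟩
  have hM : ∀ m ∈ M, 0 < m ∧ Base h m := by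
    intro m hm
    rw [hMdef, mem_image] at hm
    obtain ⟨⟨s, p⟩, ha, rfl⟩ := hm
    rw [mem_product, mem_filter] at ha
    obtain ⟨⟨-, hs⟩, hp⟩ := ha
    have hs' : 1 ≤ s := hs
    have hp' : p.Prime ∧ h + 4 < p := hT p hp
    have h2 : 2 ^ s * p = 2 * (2 ^ (s - 1) * p) := by
      obtain ⟨k, rfl⟩ : ∃ k, s = k + 1 := ⟨s - 1, by omega⟩
      rw [Nat.add_sub_cancel, pow_succ]
      ring
    have h3 : 1 ≤ 2 ^ (s - 1) := Nat.one_le_two_pow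
    have h4 : p ≤ 2 ^ (s - 1) * p := Nat.le_mul_of_pos_left p h3
    change 0 < 2 ^ s * p ∧ Base h (2 ^ s * p)
    rw [h2]
    exact ⟨by omega, base_dihedral (by omega) (by omega)⟩
  obtain ⟨X₂, hX₂⟩ := den_multiples h M hM (show (0 : ℝ) < ε / 3 by positivity)
  refine ⟨max X₁ X₂, fun X hX => ?_⟩
  have e1 := hX₁ X ((le_max_left _ _).trans hX)
  have e2 := hX₂ X ((le_max_right _ _).trans hX)
  have hsub : {n : ℕ | n ∈ Icc 1 X ∧ Even n ∧ ¬ IsOrder h n} ⊆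
      ((((Ioc 0 X).filter fun n => 2 ^ s₀ ∣ n : Finset ℕ) : Set ℕ) ∪
        (((Icc 1 X).filter fun n => (T.filter fun p => p ∣ n).card < 1 : Finset ℕ) : Set ℕ)) ∪
      {n : ℕ | n ∈ Icc 1 X ∧ (∃ m ∈ M, ∃ N, Odd N ∧ n = m * N) ∧ ¬ IsOrder h n} := by
    rintro n ⟨hn, hev, hno⟩
    have hn' := mem_Icc.1 hn
    by_cases h2 : 2 ^ s₀ ∣ n
    · left
      left
      rw [mem_coe, mem_filter, mem_Ioc]
      exact ⟨⟨by omega, hn'.2⟩, h2⟩
    · by_cases h3 : (T.filter fun p => p ∣ n).card < 1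
      · left
        right
        rw [mem_coe, mem_filter]
        exact ⟨hn, h3⟩
      · right
        refine ⟨hn, ?_, hno⟩
        rw [not_lt] at h3
        obtain ⟨p, hp⟩ := card_pos.1 h3
        rw [mem_filter] at hp
        obtain ⟨hp1, hp2⟩ := hT p hp.1
        obtain ⟨k, m, hmo, hnk⟩ := Nat.exists_eq_two_pow_mul_odd (n := n) (by omega)
        have hk1 : 1 ≤ k := by
          by_contra hcon
          have : k = 0 := by omega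
          rw [this, pow_zero, one_mul] at hnk
          rw [hnk] at hev
          exact (Nat.not_even_iff_odd.2 hmo) hev
        have hk2 : k < s₀ := by
          by_contra hcon
          apply h2
          rw [hnk]
          exact (pow_dvd_pow 2 (by omega)).mul_right m
        have hpm : p ∣ m := by
          have h4 := hp.2
          rw [hnk] at h4
          rcases (hp1.dvd_mul).1 h4 with h5 | h5
          · exfalso
            have := Nat.le_of_dvd (by norm_num) (hp1.dvd_of_dvd_pow h5)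
            omega
          · exact h5
        obtain ⟨N, rfl⟩ := hpm
        refine ⟨2 ^ k * p, ?_, N, (Nat.odd_mul.1 hmo).2, by rw [hnk, mul_assoc]⟩
        rw [hMdef, mem_image]
        refine ⟨(k, p), ?_, rfl⟩
        rw [mem_product, mem_filter]
        exact ⟨⟨mem_range.2 hk2, hk1⟩, hp.1⟩
  have hfin : ({n : ℕ | n ∈ Icc 1 X ∧ (∃ m ∈ M, ∃ N, Odd N ∧ n = m * N) ∧
      ¬ IsOrder h n}).Finite := (Finset.finite_toSet (Icc 1 X)).subset (fun n hn => hn.1)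
  have h2 := Set.ncard_le_ncard hsub (((Finset.finite_toSet _).union (Finset.finite_toSet _)).union
    hfin)
  have h3 := h2.trans ((Set.ncard_union_le _ _).trans
    (Nat.add_le_add_right (Set.ncard_union_le _ _) _))
  rw [Set.ncard_coe_finset, Set.ncard_coe_finset, Nat.Ioc_filter_dvd_card_eq_div] at h3
  have h4 : ((X / 2 ^ s₀ : ℕ) : ℝ) ≤ ε / 3 * X := by
    calc ((X / 2 ^ s₀ : ℕ) : ℝ) ≤ (X : ℝ) / ((2 ^ s₀ : ℕ) : ℝ) := Nat.cast_div_le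
      _ = (1 / 2 : ℝ) ^ s₀ * X := by
          push_cast
          rw [one_div, inv_pow]
          ring
      _ ≤ ε / 3 * X := by gcongr
  have h5 : ({n : ℕ | n ∈ Icc 1 X ∧ Even n ∧ ¬ IsOrder h n}.ncard : ℝ) ≤
      ((X / 2 ^ s₀ : ℕ) : ℝ) +
        (((Icc 1 X).filter fun n => (T.filter fun p => p ∣ n).card < 1).card : ℝ) +
        ({n : ℕ | n ∈ Icc 1 X ∧ (∃ m ∈ M, ∃ N, Odd N ∧ n = m * N) ∧ ¬ IsOrder h n}.ncard : ℝ) := by
    exact_mod_cast h3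
  linarith

theorem den_odd (B4 : ∀ v, 3 ≤ v → Base 4 (120 * v + 1)) (j : ℕ) {ε : ℝ} (hε : 0 < ε) :
    ∃ X₀ : ℕ, ∀ X : ℕ, X₀ ≤ X →
    ({n : ℕ | n ∈ Icc 1 X ∧ Odd n ∧ ¬ IsOrder (4 * j) n}.ncard : ℝ) ≤ ε * X := by
  classical
  obtain ⟨T, hT, X₁, hX₁⟩ := few_primes (64 * j) 6 (show (0 : ℝ) < ε / 2 by positivity)
  obtain ⟨M, hMdef⟩ : ∃ M : Finset ℕ, M = (T.powerset.filter fun U => Base (4 * j) (∏ p ∈ U, p)).image
      (fun U => ∏ p ∈ U, p) := ⟨_, rfl⟩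
  have hM : ∀ m ∈ M, 0 < m ∧ Base (4 * j) m := by
    intro m hm
    rw [hMdef, mem_image] at hm
    obtain ⟨U, hU, rfl⟩ := hm
    rw [mem_filter, mem_powerset] at hU
    exact ⟨prod_pos fun p hp => (hT p (hU.1 hp)).1.pos, hU.2⟩
  obtain ⟨X₂, hX₂⟩ := den_multiples (4 * j) M hM (show (0 : ℝ) < ε / 2 by positivity)
  refine ⟨max X₁ X₂, fun X hX => ?_⟩
  have e1 := hX₁ X ((le_max_left _ _).trans hX)
  have e2 := hX₂ X ((le_max_right _ _).trans hX)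
  have hsub : {n : ℕ | n ∈ Icc 1 X ∧ Odd n ∧ ¬ IsOrder (4 * j) n} ⊆
      (((Icc 1 X).filter fun n => (T.filter fun p => p ∣ n).card < 64 * j : Finset ℕ) : Set ℕ) ∪
      {n : ℕ | n ∈ Icc 1 X ∧ (∃ m ∈ M, ∃ N, Odd N ∧ n = m * N) ∧ ¬ IsOrder (4 * j) n} := by
    rintro n ⟨hn, hod, hno⟩
    by_cases h3 : (T.filter fun p => p ∣ n).card < 64 * j
    · left
      rw [mem_coe, mem_filter]
      exact ⟨hn, h3⟩
    · right
      rw [not_lt] at h3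
      obtain ⟨U, hU, hB⟩ := base_of_primes_aux B4 j (T.filter fun p => p ∣ n) (fun p hp => by
        have := hT p (mem_filter.1 hp).1
        exact ⟨this.1, by omega⟩) h3
      obtain ⟨N, hN⟩ := Finset.prod_primes_dvd n (fun p hp => (hT p (mem_filter.1 (hU hp)).1).1.prime)
        (fun p hp => (mem_filter.1 (hU hp)).2)
      refine ⟨hn, ⟨∏ p ∈ U, p, ?_, N, ?_, hN⟩, hno⟩
      · rw [hMdef, mem_image]
        refine ⟨U, ?_, rfl⟩
        rw [mem_filter, mem_powerset]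
        exact ⟨hU.trans (filter_subset _ _), hB⟩
      · rw [hN] at hod
        exact (Nat.odd_mul.1 hod).2
  have hfin : ({n : ℕ | n ∈ Icc 1 X ∧ (∃ m ∈ M, ∃ N, Odd N ∧ n = m * N) ∧
      ¬ IsOrder (4 * j) n}).Finite := (Finset.finite_toSet (Icc 1 X)).subset (fun n hn => hn.1)
  have h2 := Set.ncard_le_ncard hsub ((Finset.finite_toSet _).union hfin)
  have h3 := h2.trans (Set.ncard_union_le _ _)
  rw [Set.ncard_coe_finset] at h3
  have h5 : ({n : ℕ | n ∈ Icc 1 X ∧ Odd n ∧ ¬ IsOrder (4 * j) n}.ncard : ℝ) ≤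
      (((Icc 1 X).filter fun n => (T.filter fun p => p ∣ n).card < 64 * j).card : ℝ) +
        ({n : ℕ | n ∈ Icc 1 X ∧ (∃ m ∈ M, ∃ N, Odd N ∧ n = m * N) ∧
          ¬ IsOrder (4 * j) n}.ncard : ℝ) := by
    exact_mod_cast h3
  linarith

theorem almost_all_of_base_four (B4 : ∀ v, 3 ≤ v → Base 4 (120 * v + 1)) (h : ℕ) {ε : ℝ}
    (hε : 0 < ε) : ∃ X₀ : ℕ, ∀ X : ℕ, X₀ ≤ X →
      ({n : ℕ | n ∈ Finset.Icc 1 X ∧ 4 ∣ n ^ 2 * h ∧ ¬ IsOrder h n}.ncard : ℝ) ≤ ε * X := by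
  classical
  obtain ⟨X₁, hX₁⟩ := den_even h (half_pos hε)
  have hodd : ∃ X₀ : ℕ, ∀ X : ℕ, X₀ ≤ X →
      ({n : ℕ | n ∈ Finset.Icc 1 X ∧ Odd n ∧ 4 ∣ n ^ 2 * h ∧ ¬ IsOrder h n}.ncard : ℝ) ≤
        ε / 2 * X := by
    by_cases h4 : 4 ∣ h
    · obtain ⟨j, rfl⟩ := h4
      obtain ⟨X₂, hX₂⟩ := den_odd B4 j (half_pos hε)
      refine ⟨X₂, fun X hX => le_trans ?_ (hX₂ X hX)⟩
      have hfin : ({n : ℕ | n ∈ Icc 1 X ∧ Odd n ∧ ¬ IsOrder (4 * j) n}).Finite :=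
        (Finset.finite_toSet (Icc 1 X)).subset (fun n hn => hn.1)
      have h2 : ({n : ℕ | n ∈ Finset.Icc 1 X ∧ Odd n ∧ 4 ∣ n ^ 2 * (4 * j) ∧
          ¬ IsOrder (4 * j) n}).ncard ≤ ({n : ℕ | n ∈ Icc 1 X ∧ Odd n ∧
          ¬ IsOrder (4 * j) n}).ncard :=
        Set.ncard_le_ncard (fun n hn => ⟨hn.1, hn.2.1, hn.2.2.2⟩) hfin
      exact_mod_cast h2
    · refine ⟨0, fun X _ => ?_⟩
      have h2 : {n : ℕ | n ∈ Finset.Icc 1 X ∧ Odd n ∧ 4 ∣ n ^ 2 * h ∧ ¬ IsOrder h n} = ∅ := by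
        rw [Set.eq_empty_iff_forall_notMem]
        rintro n ⟨-, hod, hdv, -⟩
        apply h4
        have hc : Nat.Coprime 4 (n ^ 2) := by
          have h5 : Nat.Coprime (2 ^ 2) (n ^ 2) :=
            Nat.Coprime.pow 2 2 (Nat.coprime_two_left.2 hod)
          exact h5
        exact hc.dvd_of_dvd_mul_left hdv
      rw [h2, Set.ncard_empty]
      push_cast
      positivity
  obtain ⟨X₂, hX₂⟩ := hodd
  refine ⟨max X₁ X₂, fun X hX => ?_⟩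
  have e1 := hX₁ X ((le_max_left _ _).trans hX)
  have e2 := hX₂ X ((le_max_right _ _).trans hX)
  have hsub : {n : ℕ | n ∈ Finset.Icc 1 X ∧ 4 ∣ n ^ 2 * h ∧ ¬ IsOrder h n} ⊆
      {n : ℕ | n ∈ Icc 1 X ∧ Even n ∧ ¬ IsOrder h n} ∪
      {n : ℕ | n ∈ Finset.Icc 1 X ∧ Odd n ∧ 4 ∣ n ^ 2 * h ∧ ¬ IsOrder h n} := by
    rintro n ⟨hn, hdv, hno⟩
    rcases Nat.even_or_odd n with hev | hod
    · exact Or.inl ⟨hn, hev, hno⟩
    · exact Or.inr ⟨hn, hod, hdv, hno⟩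
  have hfin : ({n : ℕ | n ∈ Icc 1 X ∧ Even n ∧ ¬ IsOrder h n} ∪
      {n : ℕ | n ∈ Finset.Icc 1 X ∧ Odd n ∧ 4 ∣ n ^ 2 * h ∧ ¬ IsOrder h n}).Finite :=
    ((Finset.finite_toSet (Icc 1 X)).subset (fun n hn => hn.1)).union
      ((Finset.finite_toSet (Icc 1 X)).subset (fun n hn => hn.1))
  have h2 := (Set.ncard_le_ncard hsub hfin).trans (Set.ncard_union_le _ _)
  have h3 : ({n : ℕ | n ∈ Finset.Icc 1 X ∧ 4 ∣ n ^ 2 * h ∧ ¬ IsOrder h n}.ncard : ℝ) ≤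
      ({n : ℕ | n ∈ Icc 1 X ∧ Even n ∧ ¬ IsOrder h n}.ncard : ℝ) +
      ({n : ℕ | n ∈ Finset.Icc 1 X ∧ Odd n ∧ 4 ∣ n ^ 2 * h ∧ ¬ IsOrder h n}.ncard : ℝ) := by
    exact_mod_cast h2
  linarith

end Pool.Agent.H22.HSQ
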