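import Pool.Agent.H22.HSQ.Den
import Pool.Agent.H22.HSQ.Bfo

/-!
# Almost all orders (row FIN)
-/

namespace Pool.Agent.H22.HSQ

open Pool.Agent.H51.Homog

theorem base_of_primes (j : ℕ) (T : Finset ℕ) (hT : ∀ p ∈ T, p.Prime ∧ 7 ≤ p)
    (hc : 64 * j ≤ T.card) : ∃ U ⊆ T, Base (4 * j) (∏ p ∈ U, p) :=
  base_of_primes_aux (fun _ hv => base_four hv) j T hT hc

theorem almost_all (h : ℕ) {ε : ℝ} (hε : 0 < ε) :
    ∃ X₀ : ℕ, ∀ X : ℕ, X₀ ≤ X →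
      ({n : ℕ | n ∈ Finset.Icc 1 X ∧ 4 ∣ n ^ 2 * h ∧ ¬ IsOrder h n}.ncard : ℝ) ≤ ε * X :=
  almost_all_of_base_four (fun _ hv => base_four hv) h hε

end Pool.Agent.H22.HSQ
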