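import Pool.Agent.H22.HSQ.Over

/-!
# Inflation by a ring of odd order (row INF)
-/

namespace Pool.Agent.H22.HSQ

open Pool.Agent.H51.Homog

theorem over_inflate {α : Type} {L : α → α → α} {S : α → α → α → α → Prop} {h N : ℕ}
    {E E' : Set (α × α × α × α)} (O : Over L S h N E)
    {R : Type} [CommRing R] [Fintype R] (h2 : IsUnit (2 : R)) (b f : α → α → R)
    (hb : ∀ a c, IsUnit (b a c)) (hbS : ∀ a c a' c', S a c a' c' → IsUnit (b a c + b a' c))
    (hE : ∀ a c a' c', (a, c, a', c') ∈ E → ∀ x y x' y' : R,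
      x' + b a' c' * y' + f a' c' = x + b a c * y + f a c →
      x' + b a' c * y + f a' c = x + b a c' * y' + f a c' → (a, c, a', c') ∈ E') :
    Over L S h (N * Nat.card R) E' := by
  obtain ⟨β, _, L', S', π, hcard, hL', hS', hcov, hπ, hSπ, hext⟩ := O
  obtain ⟨L₂, hL₂⟩ : ∃ L₂ : β × R → β × R → β × R, ∀ p q, L₂ p q =
      (L' p.1 q.1, p.2 + b (π p.1) (π q.1) * q.2 + f (π p.1) (π q.1)) :=
    ⟨fun p q => _, fun p q => rfl⟩
  have hfst : ∀ p q, (L₂ p q).1 = L' p.1 q.1 := by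
    intro p q
    rw [hL₂]
  have hsnd : ∀ p q, (L₂ p q).2 = p.2 + b (π p.1) (π q.1) * q.2 + f (π p.1) (π q.1) := by
    intro p q
    rw [hL₂]
  have hlat : IsLatin L₂ := by
    constructor
    · intro p
      apply Finite.injective_iff_bijective.1
      intro q q' hq
      have h1 := congrArg Prod.fst hq
      have h3 := congrArg Prod.snd hq
      rw [hfst, hfst] at h1
      rw [hsnd, hsnd] at h3
      have h4 : q.1 = q'.1 := (hL'.1 p.1).injective h1
      rw [← h4] at h3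
      have h5 : b (π p.1) (π q.1) * q.2 = b (π p.1) (π q.1) * q'.2 := by
        linear_combination h3
      exact Prod.ext h4 ((hb _ _).mul_left_cancel h5)
    · intro q
      apply Finite.injective_iff_bijective.1
      intro p p' hp
      have hp' : L₂ p q = L₂ p' q := hp
      have h1 := congrArg Prod.fst hp'
      have h3 := congrArg Prod.snd hp'
      rw [hfst, hfst] at h1
      rw [hsnd, hsnd] at h3
      have h4 : p.1 = p'.1 := (hL'.2 q.1).injective h1
      rw [← h4] at h3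
      exact Prod.ext h4 (by linear_combination h3)
  refine ⟨β × R, inferInstance, L₂, fun r c r' c' => S' r.1 c.1 r'.1 c'.1 ∧
    (L₂ r' c').2 = (L₂ r c).2 ∧ (L₂ r' c).2 = (L₂ r c').2, fun p => π p.1, ?_, hlat, ?_, ?_, ?_,
    ?_, ?_⟩
  · rw [Nat.card_prod, hcard, mul_assoc]
  · refine ⟨?_, ?_, ?_, ?_, ?_, ?_⟩
    · intro r c r' c' hs hr
      exact hS'.ne_row hs.1 (by rw [hr])
    · intro r c r' c' hs hc
      exact hS'.ne_col hs.1 (by rw [hc])
    · intro r c r' c' hs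
      exact Prod.ext (by rw [hfst, hfst]; exact hS'.diag hs.1) hs.2.1
    · intro r c r' c' hs
      exact Prod.ext (by rw [hfst, hfst]; exact hS'.anti hs.1) hs.2.2
    · intro r c r' c' hs
      exact ⟨hS'.swap_row hs.1, hs.2.2.symm, hs.2.1.symm⟩
    · intro r c r' c' hs
      exact ⟨hS'.swap_col hs.1, hs.2.2, hs.2.1⟩
  · intro r c
    rw [← hcov r.1 c.1]
    unfold cov
    have hu : ∀ r₁ c₁, S' r.1 c.1 r₁ c₁ → IsUnit (b (π r.1) (π c₁) + b (π r₁) (π c₁)) :=
      fun r₁ c₁ hs => hbS _ _ _ _ (hSπ _ _ _ _ (hS'.swap_col hs))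
    have himg : {p : β × β | S' r.1 c.1 p.1 p.2} =
        (fun p : (β × R) × (β × R) => (p.1.1, p.2.1)) ''
          {p : (β × R) × (β × R) | S' r.1 c.1 p.1.1 p.2.1 ∧
            (L₂ p.1 p.2).2 = (L₂ r c).2 ∧ (L₂ p.1 c).2 = (L₂ r p.2).2} := by
      ext ⟨r₁, c₁⟩
      constructor
      · intro hs
        have hs' : S' r.1 c.1 r₁ c₁ := hs
        obtain ⟨u, hu'⟩ := hu r₁ c₁ hs'
        obtain ⟨y₁, hy₁⟩ : ∃ y₁ : R, (b (π r.1) (π c₁) + b (π r₁) (π c₁)) * y₁ =
            (b (π r.1) (π c.1) + b (π r₁) (π c.1)) * c.2 + f (π r.1) (π c.1) +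
              f (π r₁) (π c.1) - f (π r.1) (π c₁) - f (π r₁) (π c₁) := by
          rw [← hu']
          refine ⟨(↑u⁻¹ : R) * ((b (π r.1) (π c.1) + b (π r₁) (π c.1)) * c.2 + f (π r.1) (π c.1) +
              f (π r₁) (π c.1) - f (π r.1) (π c₁) - f (π r₁) (π c₁)), ?_⟩
          rw [← mul_assoc, Units.mul_inv, one_mul]
        refine ⟨((r₁, r.2 + b (π r.1) (π c.1) * c.2 + f (π r.1) (π c.1) -
          b (π r₁) (π c₁) * y₁ - f (π r₁) (π c₁)), (c₁, y₁)), ⟨hs', ?_, ?_⟩, rfl⟩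
        · rw [hsnd, hsnd]
          ring
        · rw [hsnd, hsnd]
          change r.2 + b (π r.1) (π c.1) * c.2 + f (π r.1) (π c.1) -
            b (π r₁) (π c₁) * y₁ - f (π r₁) (π c₁) + b (π r₁) (π c.1) * c.2 + f (π r₁) (π c.1) =
            r.2 + b (π r.1) (π c₁) * y₁ + f (π r.1) (π c₁)
          linear_combination -hy₁
      · rintro ⟨p, hp, hpe⟩
        have h1 : p.1.1 = r₁ := congrArg Prod.fst hpe
        have h3 : p.2.1 = c₁ := congrArg Prod.snd hpe
        change S' r.1 c.1 r₁ c₁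
        rw [← h1, ← h3]
        exact hp.1
    rw [himg]
    symm
    apply Set.InjOn.ncard_image
    rintro ⟨⟨r₁, x₁⟩, ⟨c₁, y₁⟩⟩ hp ⟨⟨r₂, x₂⟩, ⟨c₂, y₂⟩⟩ hp' hpe
    have e1 : r₁ = r₂ := congrArg Prod.fst hpe
    have e2 : c₁ = c₂ := congrArg Prod.snd hpe
    subst e1
    subst e2
    obtain ⟨hs, a1, a2⟩ := hp
    obtain ⟨-, b1, b2⟩ := hp'
    rw [hsnd, hsnd] at a1 a2 b1 b2
    have a1' : x₁ + b (π r₁) (π c₁) * y₁ + f (π r₁) (π c₁) =
        r.2 + b (π r.1) (π c.1) * c.2 + f (π r.1) (π c.1) := a1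
    have a2' : x₁ + b (π r₁) (π c.1) * c.2 + f (π r₁) (π c.1) =
        r.2 + b (π r.1) (π c₁) * y₁ + f (π r.1) (π c₁) := a2
    have b1' : x₂ + b (π r₁) (π c₁) * y₂ + f (π r₁) (π c₁) =
        r.2 + b (π r.1) (π c.1) * c.2 + f (π r.1) (π c.1) := b1
    have b2' : x₂ + b (π r₁) (π c.1) * c.2 + f (π r₁) (π c.1) =
        r.2 + b (π r.1) (π c₁) * y₂ + f (π r.1) (π c₁) := b2
    have hy : y₁ = y₂ := by
      apply (hu r₁ c₁ hs).mul_left_cancel
      linear_combination a1' - a2' - b1' + b2'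
    subst hy
    have hx : x₁ = x₂ := by linear_combination a1' - b1'
    rw [hx]
  · intro r c
    change π (L₂ r c).1 = _
    rw [hfst]
    exact hπ _ _
  · intro r c r' c' hs
    exact hSπ _ _ _ _ hs.1
  · intro r c r' c' hr hc hd ha hns
    have d1 : L' r'.1 c'.1 = L' r.1 c.1 := by
      rw [← hfst, ← hfst, hd]
    have a1 : L' r'.1 c.1 = L' r.1 c'.1 := by
      rw [← hfst, ← hfst, ha]
    have d2 : r'.2 + b (π r'.1) (π c'.1) * c'.2 + f (π r'.1) (π c'.1) =
        r.2 + b (π r.1) (π c.1) * c.2 + f (π r.1) (π c.1) := by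
      rw [← hsnd, ← hsnd, hd]
    have a2 : r'.2 + b (π r'.1) (π c.1) * c.2 + f (π r'.1) (π c.1) =
        r.2 + b (π r.1) (π c'.1) * c'.2 + f (π r.1) (π c'.1) := by
      rw [← hsnd, ← hsnd, ha]
    have hsame : r'.1 = r.1 → c'.1 = c.1 → False := by
      intro e1 e2
      rw [e1, e2] at d2
      rw [e1, e2] at a2
      apply hc
      refine Prod.ext e2 ?_
      apply (hb (π r.1) (π c.1)).mul_left_cancel
      apply h2.mul_left_cancel
      linear_combination d2 - a2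
    by_cases e1 : r'.1 = r.1
    · exfalso
      apply hsame e1
      rw [e1] at d1
      exact (hL'.1 r.1).injective d1
    by_cases e2 : c'.1 = c.1
    · exfalso
      apply hsame _ e2
      rw [e2] at d1
      exact (hL'.2 c.1).injective d1
    have hns' : ¬ S' r.1 c.1 r'.1 c'.1 := by
      intro hs
      exact hns ⟨hs, by rw [hd], by rw [ha]⟩
    exact hE _ _ _ _ (hext _ _ _ _ e1 e2 d1 a1 hns') r.2 c.2 r'.2 c'.2 d2 a2

end Pool.Agent.H22.HSQ
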