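import Pool.Agent.H22.HSQ.Inf

/-!
# Killing one intercalate (row KIL)
-/

namespace Pool.Agent.H22.HSQ

open Pool.Agent.H51.Homog

theorem small_ne_zero {q : ℕ} (h5 : 5 ≤ q) (n : ℕ) (h0 : 0 < n) (hn : n < 5) :
    ((n : ℕ) : ZMod q) ≠ 0 := by
  intro h
  rw [ZMod.natCast_eq_zero_iff] at h
  have := Nat.le_of_dvd h0 h
  omega

theorem over_kill {α : Type} {L : α → α → α} {S : α → α → α → α → Prop} {h N : ℕ}
    {E : Set (α × α × α × α)} (hL : IsLatin L) (hS : IsSys L S) (O : Over L S h N E)
    {e : α × α × α × α} (he : e ∈ Ext L S) {q : ℕ} (hq : q.Prime) (h5 : 5 ≤ q) :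
    Over L S h (N * q) (E \ {e}) := by
  classical
  obtain ⟨a, c, a₁, c₁⟩ := e
  obtain ⟨ha, hc, hd, hx, hns⟩ := he
  have ha' : a₁ ≠ a := ha
  have hc' : c₁ ≠ c := hc
  have hd' : L a₁ c₁ = L a c := hd
  have hx' : L a₁ c = L a c₁ := hx
  have hns' : ¬ S a c a₁ c₁ := hns
  haveI : Fact q.Prime := ⟨hq⟩
  haveI : NeZero q := ⟨hq.ne_zero⟩
  have n1 : IsUnit (1 : ZMod q) := isUnit_one
  have n2 : IsUnit (2 : ZMod q) := by
    have := small_ne_zero h5 2 (by norm_num) (by norm_num)
    push_cast at this
    exact isUnit_iff_ne_zero.2 this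
  have n3 : IsUnit (3 : ZMod q) := by
    have := small_ne_zero h5 3 (by norm_num) (by norm_num)
    push_cast at this
    exact isUnit_iff_ne_zero.2 this
  -- the coefficients
  obtain ⟨b, hb⟩ : ∃ b : α → α → ZMod q, b = fun x y =>
      if y = c then (if x = a then 2 else if x = a₁ then -2 else 1)
      else if y = c₁ then (if x = a then -2 else if x = a₁ then 2 else 1) else 1 := ⟨_, rfl⟩
  obtain ⟨f, hf⟩ : ∃ f : α → α → ZMod q, f = fun x y => if x = a ∧ y = c then 1 else 0 := ⟨_, rfl⟩
  have b1 : ∀ x, b x c = if x = a then 2 else if x = a₁ then -2 else 1 := by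
    intro x
    rw [hb]
    simp
  have b2 : ∀ x, b x c₁ = if x = a then -2 else if x = a₁ then 2 else 1 := by
    intro x
    rw [hb]
    simp [hc']
  have b3 : ∀ x y, y ≠ c → y ≠ c₁ → b x y = 1 := by
    intro x y h1 h2
    rw [hb]
    simp [h1, h2]
  have key1 : ∀ s', ¬ S a c a₁ s' := by
    intro s' hs
    have h1 := hS.diag hs
    rw [← hd'] at h1
    have h2 := (hL.1 a₁).injective h1
    rw [h2] at hs
    exact hns' hs
  have key2 : ∀ s', ¬ S a c₁ a₁ s' := by
    intro s' hs
    have h1 := hS.diag hs
    rw [← hx'] at h1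
    have h2 := (hL.1 a₁).injective h1
    rw [h2] at hs
    exact hns' (hS.swap_col hs)
  have hcard : Nat.card (ZMod q) = q := Nat.card_zmod q
  have hmain := over_inflate (R := ZMod q) (E' := E \ {(a, c, a₁, c₁)}) O n2 b f ?_ ?_ ?_
  · rw [hcard] at hmain
    exact hmain
  · intro x y
    by_cases h1 : y = c
    · rw [h1, b1]
      split_ifs
      · exact n2
      · exact n2.neg
      · exact n1
    · by_cases h2 : y = c₁
      · rw [h2, b2]
        split_ifs
        · exact n2.neg
        · exact n2
        · exact n1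
      · rw [b3 x y h1 h2]
        exact n1
  · intro x y x' y' hs
    have hne := hS.ne_row hs
    by_cases h1 : y = c
    · rw [h1, b1, b1]
      rw [h1] at hs
      split_ifs with k1 k2 k3 k4 k5 k6
      · exact absurd (k2.trans k1.symm) hne
      · rw [k1, k3] at hs
        exact absurd hs (key1 _)
      · have : (2 : ZMod q) + 1 = 3 := by norm_num
        rw [this]
        exact n3
      · rw [k4, k5] at hs
        exact absurd (hS.swap_row hs) (key1 _)
      · exact absurd (k6.trans k4.symm) hne
      · have : (-2 : ZMod q) + 1 = -1 := by norm_num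
        rw [this]
        exact n1.neg
      · have : (1 : ZMod q) + 2 = 3 := by norm_num
        rw [this]
        exact n3
      · have : (1 : ZMod q) + -2 = -1 := by norm_num
        rw [this]
        exact n1.neg
      · have : (1 : ZMod q) + 1 = 2 := by norm_num
        rw [this]
        exact n2
    · by_cases h2 : y = c₁
      · rw [h2, b2, b2]
        rw [h2] at hs
        split_ifs with k1 k2 k3 k4 k5 k6
        · exact absurd (k2.trans k1.symm) hne
        · rw [k1, k3] at hs
          exact absurd hs (key2 _)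
        · have : (-2 : ZMod q) + 1 = -1 := by norm_num
          rw [this]
          exact n1.neg
        · rw [k4, k5] at hs
          exact absurd (hS.swap_row hs) (key2 _)
        · exact absurd (k6.trans k4.symm) hne
        · have : (2 : ZMod q) + 1 = 3 := by norm_num
          rw [this]
          exact n3
        · have : (1 : ZMod q) + -2 = -1 := by norm_num
          rw [this]
          exact n1.neg
        · have : (1 : ZMod q) + 2 = 3 := by norm_num
          rw [this]
          exact n3
        · have : (1 : ZMod q) + 1 = 2 := by norm_num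
          rw [this]
          exact n2
      · rw [b3 x y h1 h2, b3 x' y h1 h2]
        have : (1 : ZMod q) + 1 = 2 := by norm_num
        rw [this]
        exact n2
  · intro x y x' y' hE s t s' t' e1 e2
    refine ⟨hE, ?_⟩
    intro heq
    have heq' : (x, y, x', y') = (a, c, a₁, c₁) := heq
    simp only [Prod.mk.injEq] at heq'
    obtain ⟨rfl, rfl, rfl, rfl⟩ := heq'
    rw [b2, b1, hf] at e1
    rw [b1, b2, hf] at e2
    simp only [if_true, and_true, ha', hc', and_self, if_false, and_false] at e1 e2
    have : (1 : ZMod q) = 0 := by linear_combination e2 - e1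
    exact one_ne_zero this

theorem over_odd {α : Type} {L : α → α → α} {S : α → α → α → α → Prop} {h N : ℕ}
    {E : Set (α × α × α × α)} (O : Over L S h N E) {r : ℕ} (hr : Odd r) :
    Over L S h (N * r) E := by
  haveI : NeZero r := ⟨by rintro rfl; exact absurd hr (by decide)⟩
  have n2 : IsUnit (2 : ZMod r) := by
    have h1 := (ZMod.isUnit_iff_coprime 2 r).2 (Nat.coprime_two_left.2 hr)
    push_cast at h1
    exact h1
  have hmain := over_inflate (R := ZMod r) (E' := E) O n2 (fun _ _ => 1) (fun _ _ => 0)
    (fun _ _ => isUnit_one) (fun _ _ _ _ _ => by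
      have : (1 : ZMod r) + 1 = 2 := by norm_num
      rw [this]
      exact n2) (fun _ _ _ _ hE _ _ _ _ _ _ => hE)
  rw [Nat.card_zmod] at hmain
  exact hmain

end Pool.Agent.H22.HSQ
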