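import Pool.Agent.H22.HSQ.Kil

/-!
# All additional intercalates are killed (row KIN)
-/

namespace Pool.Agent.H22.HSQ

open Pool.Agent.H51.Homog

theorem over_start {α : Type} [Fintype α] {L : α → α → α} {S : α → α → α → α → Prop} {h : ℕ}
    (hL : IsLatin L) (hS : IsSys L S) (hc : ∀ r c, cov S r c = h) :
    Over L S h 1 (Ext L S) := by
  refine ⟨α, inferInstance, L, S, id, by rw [mul_one], hL, hS, hc, fun _ _ => rfl,
    fun _ _ _ _ hs => hs, ?_⟩
  intro r c r' c' hr hc' hd ha hns
  exact ⟨hr, hc', hd, ha, hns⟩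

theorem over_kill_many {α : Type} [Fintype α] {L : α → α → α} {S : α → α → α → α → Prop} {h : ℕ}
    (hL : IsLatin L) (hS : IsSys L S) (hc : ∀ r c, cov S r c = h) (T : Finset ℕ)
    (hT : ∀ q ∈ T, q.Prime ∧ 5 ≤ q) :
    ∃ E ⊆ Ext L S, Over L S h (∏ q ∈ T, q) E ∧ E.ncard + T.card ≤ max (Ext L S).ncard T.card := by
  induction T using Finset.induction_on with
  | empty =>
    refine ⟨Ext L S, subset_rfl, ?_, by simp⟩
    rw [Finset.prod_empty]
    exact over_start hL hS hc
  | insert q T hq ih =>
    obtain ⟨E, hE, hO, hcard⟩ := ih (fun q hq => hT q (Finset.mem_insert_of_mem hq))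
    obtain ⟨hqp, hq5⟩ := hT q (Finset.mem_insert_self _ _)
    rw [Finset.prod_insert hq, Finset.card_insert_of_notMem hq, mul_comm]
    rcases E.eq_empty_or_nonempty with rfl | ⟨e, he⟩
    · refine ⟨∅, Set.empty_subset _, over_odd hO (hqp.odd_of_ne_two (by omega)), ?_⟩
      rw [Set.ncard_empty]
      exact (by omega : 0 + (T.card + 1) ≤ T.card + 1).trans (le_max_right _ _)
    · refine ⟨E \ {e}, Set.sdiff_subset.trans hE, over_kill hL hS hO (hE he) hqp hq5, ?_⟩
      have h1 := Set.ncard_sdiff_singleton_add_one he (Set.toFinite E)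
      have h2 : E.ncard + T.card ≤ (Ext L S).ncard ∨ E.ncard + T.card ≤ T.card :=
        le_max_iff.1 hcard
      rcases h2 with h2 | h2
      · exact (by omega : (E \ {e}).ncard + (T.card + 1) ≤ (Ext L S).ncard).trans (le_max_left _ _)
      · omega

theorem isOrder_of_over {α : Type} [Fintype α] {L : α → α → α} {S : α → α → α → α → Prop}
    {h N : ℕ} (O : Over L S h N ∅) : IsOrder h (Fintype.card α * N) := by
  obtain ⟨β, _, L', S', π, hcard, hL', hS', hcov, -, -, hext⟩ := O
  have hcard' : Fintype.card β = Fintype.card α * N := by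
    rw [← Nat.card_eq_fintype_card, hcard, Nat.card_eq_fintype_card]
  let e : β ≃ Fin (Fintype.card α * N) := Fintype.equivFinOfCardEq hcard'
  refine ⟨fun x y => e (L' (e.symm x) (e.symm y)), ⟨fun r => ?_, fun c => ?_⟩, fun r c => ?_⟩
  · exact e.bijective.comp ((hL'.1 _).comp e.symm.bijective)
  · exact e.bijective.comp ((hL'.2 _).comp e.symm.bijective)
  · rw [← hcov (e.symm r) (e.symm c)]
    unfold intercalatesAt cov
    have himg : {p : β × β | S' (e.symm r) (e.symm c) p.1 p.2} =
        (fun p : Fin (Fintype.card α * N) × Fin (Fintype.card α * N) => (e.symm p.1, e.symm p.2)) ''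
          {p | p.1 ≠ r ∧ p.2 ≠ c ∧ e (L' (e.symm p.1) (e.symm p.2)) =
            e (L' (e.symm r) (e.symm c)) ∧ e (L' (e.symm p.1) (e.symm c)) =
            e (L' (e.symm r) (e.symm p.2))} := by
      ext ⟨x, y⟩
      constructor
      · intro hs
        have hs' : S' (e.symm r) (e.symm c) x y := hs
        refine ⟨(e x, e y), ⟨?_, ?_, ?_, ?_⟩, ?_⟩
        · intro hx
          apply hS'.ne_row hs'
          rw [← hx, Equiv.symm_apply_apply]
        · intro hy
          apply hS'.ne_col hs'
          rw [← hy, Equiv.symm_apply_apply]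
        · simp only [Equiv.symm_apply_apply]
          rw [hS'.diag hs']
        · simp only [Equiv.symm_apply_apply]
          rw [hS'.anti hs']
        · simp only [Equiv.symm_apply_apply]
      · rintro ⟨⟨x', y'⟩, ⟨hx, hy, hd, ha⟩, hp⟩
        have hx' : e.symm x' = x := congrArg Prod.fst hp
        have hy' : e.symm y' = y := congrArg Prod.snd hp
        change S' (e.symm r) (e.symm c) x y
        rw [← hx', ← hy']
        by_contra hns
        have := hext (e.symm r) (e.symm c) (e.symm x') (e.symm y')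
          (fun h => hx (e.symm.injective h)) (fun h => hy (e.symm.injective h))
          (e.injective hd) (e.injective ha) hns
        exact this
    rw [himg]
    symm
    apply Set.InjOn.ncard_image
    rintro ⟨x, y⟩ - ⟨x', y'⟩ - hp
    have h1 : e.symm x = e.symm x' := congrArg Prod.fst hp
    have h2 : e.symm y = e.symm y' := congrArg Prod.snd hp
    rw [e.symm.injective h1, e.symm.injective h2]

theorem exists_kill {h m : ℕ} (H : Base h m) :
    ∃ K : ℕ, ∀ N : ℕ, Odd N → ∀ T : Finset ℕ, (∀ q ∈ T, q.Prime ∧ 5 ≤ q ∧ q ∣ N) →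
      K ≤ T.card → IsOrder h (m * N) := by
  obtain ⟨α, _, L, S, rfl, hL, hS, hc⟩ := H
  refine ⟨(Ext L S).ncard, fun N hN T hT hK => ?_⟩
  obtain ⟨E, hE, hO, hcard⟩ := over_kill_many hL hS hc T (fun q hq => ⟨(hT q hq).1, (hT q hq).2.1⟩)
  have hE0 : E = ∅ := by
    rw [max_eq_right hK] at hcard
    have h1 : E.ncard = 0 := by omega
    exact (Set.ncard_eq_zero (Set.toFinite E)).1 h1
  subst hE0
  obtain ⟨r, hr⟩ := Finset.prod_primes_dvd N (fun q hq => (hT q hq).1.prime)
    (fun q hq => (hT q hq).2.2)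
  have hr' : Odd r := by
    rw [hr] at hN
    exact (Nat.odd_mul.1 hN).2
  rw [hr]
  exact isOrder_of_over (over_odd hO hr')

end Pool.Agent.H22.HSQ
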