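import Pool.Agent.H22.HSQ.Defs

/-!
# Latin squares above a given one
-/

namespace Pool.Agent.H22.HSQ

open Pool.Agent.H51.Homog

/-- the intercalates of `L` that do not belong to `S` -/
def Ext {α : Type} (L : α → α → α) (S : α → α → α → α → Prop) : Set (α × α × α × α) :=
  {e | e.2.2.1 ≠ e.1 ∧ e.2.2.2 ≠ e.2.1 ∧ L e.2.2.1 e.2.2.2 = L e.1 e.2.1 ∧
    L e.2.2.1 e.2.1 = L e.1 e.2.2.2 ∧ ¬ S e.1 e.2.1 e.2.2.1 e.2.2.2}

/-- There is a latin square `L'` above `L`, of order `N` times the order of `L`, with a set `S'` of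
intercalates above `S` that covers every cell exactly `h` times, and such that all other
intercalates of `L'` lie above quadruples in `E`. -/
def Over {α : Type} (L : α → α → α) (S : α → α → α → α → Prop) (h N : ℕ)
    (E : Set (α × α × α × α)) : Prop :=
  ∃ (β : Type) (_ : Fintype β) (L' : β → β → β) (S' : β → β → β → β → Prop) (π : β → α),
    Nat.card β = Nat.card α * N ∧ IsLatin L' ∧ IsSys L' S' ∧ (∀ r c, cov S' r c = h) ∧
    (∀ r c, π (L' r c) = L (π r) (π c)) ∧
    (∀ r c r' c', S' r c r' c' → S (π r) (π c) (π r') (π c')) ∧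
    ∀ r c r' c', r' ≠ r → c' ≠ c → L' r' c' = L' r c → L' r' c = L' r c' → ¬ S' r c r' c' →
      (π r, π c, π r', π c') ∈ E

end Pool.Agent.H22.HSQ
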